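import Pool.Agent.H13.CubeDim.Step

set_option autoImplicit false

open Set Filter Topology

namespace H13.CubeDim

/-- shifted grid coordinate -/
noncomputable def gg (k : ℕ) (t : ℝ) : ℝ := 2 ^ k * t - 1 / 3

lemma gg_cont (k : ℕ) : Continuous (gg k) := by unfold gg; fun_prop

lemma not_dyadic {k : ℕ} {t : ℝ} {z : ℤ} (h : gg k t = z) : ¬ ∃ n, D n t := by
  rintro ⟨n, w, hw⟩
  have h1 : (2 : ℝ) ^ k * t = z + 1 / 3 := by unfold gg at h; linarith
  have h2 : (3 : ℝ) * (2 ^ k * w - 2 ^ n * z) = 2 ^ n := by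
    have h3 : (2 : ℝ) ^ n * (2 ^ k * t) = 2 ^ k * (2 ^ n * t) := by ring
    rw [h1, hw] at h3
    linarith
  have h4 : (3 : ℤ) * (2 ^ k * w - 2 ^ n * z) = 2 ^ n := by exact_mod_cast h2
  have h5 : (3 : ℤ) ∣ 2 ^ n := ⟨_, h4.symm⟩
  have h6 : (3 : ℤ) ∣ 2 := Int.prime_three.dvd_of_dvd_pow h5
  norm_num at h6

/-- neighbourhood of an open face of the shifted grid -/
def UU (b k : ℕ) (S : Finset (Fin b)) (z : Fin b → ℤ) : Set (Fin b → ℝ) :=
  {y | (∀ j ∈ S, |gg k (y j) - z j| < 1 / 2) ∧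
    (∀ l, l ∉ S → (z l : ℝ) < gg k (y l) ∧ gg k (y l) < z l + 1) ∧
    ∀ j ∈ S, ∀ l, l ∉ S → |gg k (y j) - z j| < gg k (y l) - z l ∧
      |gg k (y j) - z j| < z l + 1 - gg k (y l)}

lemma UU_open (b k : ℕ) (S : Finset (Fin b)) (z : Fin b → ℤ) : IsOpen (UU b k S z) := by
  have hg : ∀ j : Fin b, Continuous (fun y : Fin b → ℝ => gg k (y j)) :=
    fun j => (gg_cont k).comp (continuous_apply j)
  have e : UU b k S z = (⋂ j ∈ S, {y | |gg k (y j) - z j| < 1 / 2}) ∩
      ((⋂ l ∈ Sᶜ, {y | (z l : ℝ) < gg k (y l)} ∩ {y | gg k (y l) < z l + 1}) ∩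
      ⋂ j ∈ S, ⋂ l ∈ Sᶜ, {y | |gg k (y j) - z j| < gg k (y l) - z l} ∩
        {y | |gg k (y j) - z j| < z l + 1 - gg k (y l)}) := by
    ext y
    simp [UU]
  rw [e]
  refine IsOpen.inter ?_ (IsOpen.inter ?_ ?_)
  · exact isOpen_biInter_finset (fun j _ => isOpen_lt ((hg j).sub continuous_const).abs
      continuous_const)
  · refine isOpen_biInter_finset (fun l _ => IsOpen.inter ?_ ?_)
    · exact isOpen_lt continuous_const (hg l)
    · exact isOpen_lt (hg l) continuous_const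
  · refine isOpen_biInter_finset (fun j _ => isOpen_biInter_finset (fun l _ =>
      IsOpen.inter ?_ ?_))
    · exact isOpen_lt ((hg j).sub continuous_const).abs ((hg l).sub continuous_const)
    · exact isOpen_lt ((hg j).sub continuous_const).abs (continuous_const.sub (hg l))

lemma int_dist {x : ℝ} {z w : ℤ} {r : ℝ} (h1 : r < x - z) (h2 : r < z + 1 - x) :
    r < |x - w| := by
  rcases le_or_gt w z with h | h
  · have : (w : ℝ) ≤ z := by exact_mod_cast h
    exact lt_of_lt_of_le (by linarith) (le_abs_self _)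
  · have : (z : ℝ) + 1 ≤ w := by exact_mod_cast h
    exact lt_of_lt_of_le (by linarith) (neg_le_abs _)

lemma UU_unique {b k : ℕ} {S S' : Finset (Fin b)} {z z' : Fin b → ℤ} {y : Fin b → ℝ}
    (h : y ∈ UU b k S z) (h' : y ∈ UU b k S' z') (hc : S.card = S'.card) :
    S = S' ∧ z = z' := by
  have hS : S = S' := by
    by_contra hne
    have h1 : ¬ S ⊆ S' := fun hs => hne (Finset.eq_of_subset_of_card_le hs hc.ge)
    have h2 : ¬ S' ⊆ S := fun hs => hne (Finset.eq_of_subset_of_card_le hs hc.le).symm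
    obtain ⟨j, hj, hj'⟩ := Finset.not_subset.1 h1
    obtain ⟨l, hl', hl⟩ := Finset.not_subset.1 h2
    have a1 := h.2.2 j hj l hl
    have a2 := h'.2.2 l hl' j hj'
    have b1 := int_dist (w := z' l) a1.1 a1.2
    have b2 := int_dist (w := z j) a2.1 a2.2
    exact lt_asymm b1 b2
  subst hS
  refine ⟨rfl, ?_⟩
  funext j
  by_cases hj : j ∈ S
  · have a1 := abs_lt.1 (h.1 j hj)
    have a2 := abs_lt.1 (h'.1 j hj)
    have a3 : (z j : ℝ) < z' j + 1 := by linarith
    have a4 : (z' j : ℝ) < z j + 1 := by linarith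
    have a5 : z j < z' j + 1 := by exact_mod_cast a3
    have a6 : z' j < z j + 1 := by exact_mod_cast a4
    omega
  · have a1 := h.2.1 j hj
    have a2 := h'.2.1 j hj
    have a3 : (z j : ℝ) < z' j + 1 := by linarith
    have a4 : (z' j : ℝ) < z j + 1 := by linarith
    have a5 : z j < z' j + 1 := by exact_mod_cast a3
    have a6 : z' j < z j + 1 := by exact_mod_cast a4
    omega

lemma UU_small {b k : ℕ} {S : Finset (Fin b)} {z : Fin b → ℤ} {y y' : Fin b → ℝ}
    (h : y ∈ UU b k S z) (h' : y' ∈ UU b k S z) (j : Fin b) : |y j - y' j| ≤ (1 / 2) ^ k := by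
  have key : |gg k (y j) - gg k (y' j)| ≤ 1 := by
    by_cases hj : j ∈ S
    · have a1 := abs_lt.1 (h.1 j hj)
      have a2 := abs_lt.1 (h'.1 j hj)
      exact abs_le.2 ⟨by linarith, by linarith⟩
    · have a1 := h.2.1 j hj
      have a2 := h'.2.1 j hj
      exact abs_le.2 ⟨by linarith, by linarith⟩
  have e : gg k (y j) - gg k (y' j) = 2 ^ k * (y j - y' j) := by unfold gg; ring
  rw [e, abs_mul, abs_of_pos (pow_pos' k)] at key
  have e2 : (2 : ℝ) ^ k * (1 / 2) ^ k = 1 := by rw [← mul_pow]; norm_num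
  exact le_of_mul_le_mul_left (key.trans_eq e2.symm) (pow_pos' k)

open Classical in
lemma UU_cover {b : ℕ} (k : ℕ) {y : Fin b → ℝ} {j1 j2 : ℕ}
    (h : ∀ j : Fin b, (j : ℕ) ≠ j1 → (j : ℕ) ≠ j2 → ∃ n, D n (y j)) :
    ∃ (S : Finset (Fin b)) (z : Fin b → ℤ), S.card ≤ 2 ∧ y ∈ UU b k S z := by
  refine ⟨Finset.univ.filter (fun j => ∃ z : ℤ, gg k (y j) = z), fun j => ⌊gg k (y j)⌋, ?_, ?_⟩
  · have hsub : Finset.image (Fin.val : Fin b → ℕ)
        (Finset.univ.filter (fun j : Fin b => ∃ z : ℤ, gg k (y j) = z)) ⊆ {j1, j2} := by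
      intro n hn
      obtain ⟨j, hj, rfl⟩ := Finset.mem_image.1 hn
      obtain ⟨-, z, hz⟩ := Finset.mem_filter.1 hj
      by_contra hne
      simp only [Finset.mem_insert, Finset.mem_singleton, not_or] at hne
      exact not_dyadic hz (h j hne.1 hne.2)
    rw [← Finset.card_image_of_injective _ Fin.val_injective]
    exact (Finset.card_le_card hsub).trans Finset.card_le_two
  · have hin : ∀ j, j ∈ Finset.univ.filter (fun j : Fin b => ∃ z : ℤ, gg k (y j) = z) →
        gg k (y j) - ⌊gg k (y j)⌋ = 0 := by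
      intro j hj
      obtain ⟨-, z, hz⟩ := Finset.mem_filter.1 hj
      rw [hz, Int.floor_intCast, sub_self]
    have hout : ∀ l, l ∉ Finset.univ.filter (fun j : Fin b => ∃ z : ℤ, gg k (y j) = z) →
        (⌊gg k (y l)⌋ : ℝ) < gg k (y l) ∧ gg k (y l) < ⌊gg k (y l)⌋ + 1 := by
      intro l hl
      refine ⟨lt_of_le_of_ne (Int.floor_le _) ?_, Int.lt_floor_add_one _⟩
      intro he
      exact hl (Finset.mem_filter.2 ⟨Finset.mem_univ _, _, he.symm⟩)
    refine ⟨?_, hout, ?_⟩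
    · intro j hj
      rw [hin j hj]; norm_num
    · intro j hj l hl
      rw [hin j hj, abs_zero]
      have := hout l hl
      constructor <;> linarith

/-- union of the neighbourhoods of faces of codimension at most two -/
def OO (b k : ℕ) : Set (Fin b → ℝ) :=
  ⋃ t : {t : Finset (Fin b) × (Fin b → ℤ) // t.1.card ≤ 2}, UU b k t.1.1 t.1.2

lemma OO_open (b k : ℕ) : IsOpen (OO b k) := isOpen_iUnion (fun _ => UU_open _ _ _ _)

lemma exists_beta {G : Type*} [MetricSpace G] [CompactSpace G] {A : Set G} {b : ℕ}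
    {h : ℕ → G → ℝ} {F : Set G} (hI : Inv A b h F) (k : ℕ) {η : ℝ} (hη : 0 < η) :
    ∃ β : ℝ, 0 < β ∧ β ≤ η ∧ ∀ x, ∀ y : Fin b → ℝ, (∀ j : Fin b, |y j - h j x| ≤ β) →
      y ∈ OO b k := by
  let π : G → (Fin b → ℝ) := fun x j => h j x
  have hπ : Continuous π := continuous_pi (fun j => hI.cont j)
  have hK : IsCompact (range π) := isCompact_range hπ
  have hsub : range π ⊆ OO b k := by
    rintro _ ⟨x, rfl⟩
    obtain ⟨j1, j2, hj⟩ := hI.rank2 x
    obtain ⟨S, z, hS, hy⟩ := UU_cover (b := b) k (y := π x) (j1 := j1) (j2 := j2)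
      (fun j h1 h2 => hj j h1 h2)
    exact mem_iUnion.2 ⟨⟨(S, z), hS⟩, hy⟩
  obtain ⟨δ, hδ0, hδ⟩ := hK.exists_cthickening_subset_open (OO_open b k) hsub
  refine ⟨min δ η, lt_min hδ0 hη, min_le_right _ _, fun x y hy => ?_⟩
  apply hδ
  refine Metric.mem_cthickening_of_dist_le y (π x) δ _ ⟨x, rfl⟩ ?_
  refine (dist_pi_le_iff hδ0.le).2 (fun j => ?_)
  rw [Real.dist_eq]
  exact (hy j).trans (min_le_left _ _)

end H13.CubeDim
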