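import Pool.Agent.H13.CubeDim.Limit

set_option autoImplicit false

open Set Filter Topology

namespace H13.CubeDim

/-- the unit cube -/
abbrev Cube : Type := Set.Icc (0 : Fin 3 → ℝ) 1

/-- points of the cube with a rational coordinate -/
def RatPts : Set Cube := {x | ∃ (i : Fin 3) (q : ℚ), x.1 i = q}

lemma rich_cube : Rich RatPts := by
  intro x N hN
  obtain ⟨ε, hε, hball⟩ := Metric.mem_nhds_iff.1 hN
  have h1 : ∀ i : Fin 3, ∃ q : ℚ, x.1 i - ε / 2 < q ∧ (q : ℝ) < x.1 i :=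
    fun i => exists_rat_btwn (by linarith)
  have h2 : ∀ i : Fin 3, ∃ q : ℚ, x.1 i < q ∧ (q : ℝ) < x.1 i + ε / 2 :=
    fun i => exists_rat_btwn (by linarith)
  choose a ha1 ha2 using h1
  choose c hc1 hc2 using h2
  have hco : ∀ i : Fin 3, Continuous (fun y : Cube => y.1 i) :=
    fun i => (continuous_apply i).comp continuous_subtype_val
  have hVo : IsOpen {y : Cube | ∀ i, (a i : ℝ) < y.1 i ∧ y.1 i < c i} := by
    have : {y : Cube | ∀ i, (a i : ℝ) < y.1 i ∧ y.1 i < c i} =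
        ⋂ i, ({y : Cube | (a i : ℝ) < y.1 i} ∩ {y : Cube | y.1 i < c i}) := by
      ext y; simp
    rw [this]
    exact isOpen_iInter_of_finite (fun i => (isOpen_lt continuous_const (hco i)).inter
      (isOpen_lt (hco i) continuous_const))
  have hcl : closure {y : Cube | ∀ i, (a i : ℝ) < y.1 i ∧ y.1 i < c i} ⊆
      {y : Cube | ∀ i, (a i : ℝ) ≤ y.1 i ∧ y.1 i ≤ c i} := by
    refine closure_minimal (fun y hy i => ⟨(hy i).1.le, (hy i).2.le⟩) ?_
    have : {y : Cube | ∀ i, (a i : ℝ) ≤ y.1 i ∧ y.1 i ≤ c i} =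
        ⋂ i, ({y : Cube | (a i : ℝ) ≤ y.1 i} ∩ {y : Cube | y.1 i ≤ c i}) := by
      ext y; simp
    rw [this]
    exact isClosed_iInter (fun i => (isClosed_le continuous_const (hco i)).inter
      (isClosed_le (hco i) continuous_const))
  refine ⟨_, hVo, fun i => ⟨ha2 i, hc1 i⟩, ?_, ?_⟩
  · intro y hy
    apply hball
    rw [Metric.mem_ball]
    change dist y.1 x.1 < ε
    refine lt_of_le_of_lt ((dist_pi_le_iff (by positivity : (0 : ℝ) ≤ ε / 2)).2 (fun i => ?_))
      (by linarith)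
    have h3 := hcl hy i
    have h4 := ha1 i
    have h5 := hc2 i
    rw [Real.dist_eq]
    exact abs_le.2 ⟨by linarith [h3.1], by linarith [h3.2]⟩
  · rintro y ⟨hy1, hy2⟩
    rw [hVo.interior_eq] at hy2
    have h3 := hcl hy1
    simp only [mem_setOf_eq, not_forall] at hy2
    obtain ⟨i, hi⟩ := hy2
    by_cases h4 : (a i : ℝ) < y.1 i
    · refine ⟨i, c i, le_antisymm (h3 i).2 ?_⟩
      by_contra h5
      exact hi ⟨h4, not_le.1 h5⟩
    · exact ⟨i, a i, le_antisymm (not_lt.1 h4) (h3 i).1⟩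

/-- clamping to the cube -/
noncomputable def toCube (x : Fin 3 → ℝ) : Cube :=
  ⟨fun i => max 0 (min 1 (x i)), fun i => le_max_left _ _,
    fun i => max_le zero_le_one (min_le_left _ _)⟩

lemma toCube_cont : Continuous toCube := by
  refine Continuous.subtype_mk ?_ _
  exact continuous_pi (fun i => by fun_prop)

lemma toCube_val {x : Fin 3 → ℝ} (hx : ∀ i, 0 ≤ x i ∧ x i ≤ 1) : (toCube x).1 = x := by
  funext i
  change max 0 (min 1 (x i)) = x i
  rw [min_eq_right (hx i).2, max_eq_right (hx i).1]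

/-- the plane `x i = q` -/
noncomputable def plane (t : Fin 3 × ℚ) : AffineSubspace ℝ (Fin 3 → ℝ) :=
  AffineSubspace.mk' (fun _ => (t.2 : ℝ)) (LinearMap.ker (LinearMap.proj (R := ℝ)
    (φ := fun _ : Fin 3 => ℝ) t.1))

lemma mem_plane (t : Fin 3 × ℚ) (x : Fin 3 → ℝ) : x ∈ plane t ↔ x t.1 = t.2 := by
  unfold plane
  rw [AffineSubspace.mem_mk']
  simp [sub_eq_zero]

lemma plane_dim (t : Fin 3 × ℚ) : Module.finrank ℝ (plane t).direction = 2 := by
  unfold plane
  rw [AffineSubspace.direction_mk']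
  have h := LinearMap.finrank_range_add_finrank_ker (LinearMap.proj (R := ℝ)
    (φ := fun _ : Fin 3 => ℝ) t.1)
  have h1 : LinearMap.range (LinearMap.proj (R := ℝ) (φ := fun _ : Fin 3 => ℝ) t.1) = ⊤ :=
    LinearMap.range_eq_top.2 (LinearMap.proj_surjective t.1)
  rw [h1] at h
  simp at h
  omega

end H13.CubeDim
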