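import Pool.Agent.H13.CubeDim.Cover

set_option autoImplicit false

open Set Filter Topology BoundedContinuousFunction

namespace H13.CubeDim

/-- data of one stage -/
structure Stage (G : Type*) where
  b : ℕ
  h : ℕ → G → ℝ
  F : Set G
  β : ℝ

variable {G : Type*} [MetricSpace G]

def PP (A : Set G) (k : ℕ) (s : Stage G) : Prop :=
  Inv A s.b s.h s.F ∧ 0 < s.β ∧ s.β ≤ (1 / 2) ^ k ∧
    ∀ x, ∀ y : Fin s.b → ℝ, (∀ j : Fin s.b, |y j - s.h j x| ≤ s.β) → y ∈ OO s.b k

def RR (A : Set G) (k : ℕ) (s s' : Stage G) : Prop :=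
  s.b ≤ s'.b ∧ (∀ j x, |s'.h j x - s.h j x| ≤ s.β / 2) ∧ s'.β ≤ s.β / 2 ∧
    (∀ j, j < s.b → ∀ x, |s'.h j x - s.h j x| ≤ (1 / 2) ^ (k + 2) * s.h j x) ∧
    (∀ x, x ∉ A → ∃ j, s.b ≤ j ∧ j < s'.b ∧ 0 < s'.h j x) ∧
    (∀ j, s.b ≤ j → ∀ x y, 0 < s'.h j x → 0 < s'.h j y → dist x y < (1 / 2) ^ k)

lemma exists_stages [CompactSpace G] {A : Set G} (hA : Rich A) :
    ∃ s : ℕ → Stage G, (∀ k, PP A k (s k)) ∧ ∀ k, RR A k (s k) (s (k + 1)) := by
  refine dep_seq (PP A) (RR A) ?_ ?_
  · have hI : Inv A 0 (fun _ _ => 0) (∅ : Set G) :=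
      { cont := fun _ => continuous_const
        nonneg := fun _ _ => le_rfl
        zero := fun _ _ _ => rfl
        closed := isClosed_empty
        sub := empty_subset _
        rank1 := fun _ _ => ⟨0, Eventually.of_forall (fun _ => ⟨0, fun _ _ => D_zero 0⟩)⟩
        rank2 := fun _ => ⟨0, 0, fun _ _ _ => ⟨0, D_zero 0⟩⟩
        locz := fun _ _ _ _ => Eventually.of_forall (fun _ => rfl) }
    obtain ⟨β, h1, h2, h3⟩ := exists_beta hI 0 one_pos
    exact ⟨⟨0, fun _ _ => 0, ∅, β⟩, hI, h1, by simpa using h2, h3⟩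
  · rintro k ⟨b, h, F, β⟩ ⟨hI, hβ0, hβ1, hcov⟩
    have hk0 : (0 : ℝ) < (1 / 2) ^ (k + 2) := by positivity
    have hk1 : (1 / 2 : ℝ) ^ (k + 2) < 1 := pow_lt_one₀ (by norm_num) (by norm_num) (by omega)
    obtain ⟨b', h', F', hb, hI', c1, c2, c3, c4⟩ :=
      step hA hI (δ := β / 2) (ε := (1 / 2) ^ k) (κ := (1 / 2) ^ (k + 2))
        (by simpa using hβ0) (by positivity) hk0 hk1
    obtain ⟨β', h1, h2, h3⟩ := exists_beta hI' (k + 1) (η := min (β / 2) ((1 / 2) ^ (k + 1)))
      (lt_min (by simpa using hβ0) (by positivity))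
    exact ⟨⟨b', h', F', β'⟩, ⟨hI', h1, h2.trans (min_le_right _ _), h3⟩,
      hb, c1, h2.trans (min_le_left _ _), c2, c3, c4⟩

theorem general [CompactSpace G] {A : Set G} (hA : Rich A) :
    ∃ F : G → (ℕ →ᵇ ℝ), Continuous F ∧ (∀ x y, F x = F y → x ≠ y → x ∈ A) ∧
      ∀ ε : ℝ, 0 < ε → ∃ (n : ℕ) (U : Fin n → Set (range F)), (∀ j, IsOpen (U j)) ∧
        (∀ j, ∀ a ∈ U j, ∀ b ∈ U j, dist a b < ε) ∧ (∀ y, ∃ j, y ∈ U j) ∧
        ∀ y, {j | y ∈ U j}.ncard ≤ 3 := by
  classical
  obtain ⟨s, hP, hR⟩ := exists_stages hA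
  let H : ℕ → ℕ → G → ℝ := fun k => (s k).h
  let B : ℕ → ℝ := fun k => (s k).β
  have hB0 : ∀ k, 0 < B k := fun k => (hP k).2.1
  have hB1 : ∀ k, B k ≤ (1 / 2) ^ k := fun k => (hP k).2.2.1
  have hBt : Tendsto B atTop (𝓝 0) :=
    squeeze_zero (fun k => (hB0 k).le) hB1
      (tendsto_pow_atTop_nhds_zero_of_lt_one (by norm_num) (by norm_num))
  have hd : ∀ k n j x, |H (k + n) j x - H k j x| ≤ B k - B (k + n) := by
    intro k n j x
    induction n with
    | zero => simp
    | succ n ih =>
      have h1 := (hR (k + n)).2.1 j x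
      have h2 := (hR (k + n)).2.2.1
      have h3 : |H (k + (n + 1)) j x - H k j x| ≤
          |H (k + (n + 1)) j x - H (k + n) j x| + |H (k + n) j x - H k j x| :=
        abs_sub_le _ _ _
      have h4 : |H (k + (n + 1)) j x - H (k + n) j x| ≤ B (k + n) / 2 := h1
      have h5 : B (k + (n + 1)) ≤ B (k + n) / 2 := h2
      linarith
  have hd' : ∀ k n, k ≤ n → ∀ j x, |H n j x - H k j x| ≤ B k := by
    intro k n hkn j x
    obtain ⟨i, rfl⟩ := Nat.exists_eq_add_of_le hkn
    have h1 := hd k i j x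
    have h2 := hB0 (k + i)
    linarith
  have hlim : ∀ j x, ∃ l, Tendsto (fun k => H k j x) atTop (𝓝 l) := by
    intro j x
    refine cauchySeq_tendsto_of_complete ?_
    refine cauchySeq_of_le_tendsto_0 (fun k => B k + B k) ?_ (by simpa using hBt.add hBt)
    intro n m N hn hm
    rw [Real.dist_eq]
    have h1 := hd' N n hn j x
    have h2 := hd' N m hm j x
    have h3 := abs_sub_le (H n j x) (H N j x) (H m j x)
    rw [abs_sub_comm (H N j x)] at h3
    linarith
  choose f hf using hlim
  have hfH : ∀ k j x, |f j x - H k j x| ≤ B k := by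
    intro k j x
    have h1 : Tendsto (fun n => |H n j x - H k j x|) atTop (𝓝 |f j x - H k j x|) :=
      ((hf j x).sub_const _).abs
    refine le_of_tendsto h1 ?_
    filter_upwards [eventually_ge_atTop k] with n hn
    exact hd' k n hn j x
  have hf0 : ∀ j x, 0 ≤ f j x := fun j x =>
    ge_of_tendsto' (hf j x) (fun k => (hP k).1.nonneg j x)
  have hfbd : ∀ x j, ‖f j x‖ ≤ B 0 + ∑ i ∈ Finset.range (s 0).b, H 0 i x := by
    intro x j
    have h1 := hfH 0 j x
    have h2 := (abs_le.1 h1).2
    rw [Real.norm_eq_abs, abs_of_nonneg (hf0 j x)]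
    have h3 : H 0 j x ≤ ∑ i ∈ Finset.range (s 0).b, H 0 i x := by
      by_cases hj : j < (s 0).b
      · exact Finset.single_le_sum (f := fun i => H 0 i x)
          (fun i _ => (hP 0).1.nonneg i x) (Finset.mem_range.2 hj)
      · have : H 0 j x = 0 := (hP 0).1.zero j (not_lt.1 hj) x
        rw [this]
        exact Finset.sum_nonneg (fun i _ => (hP 0).1.nonneg i x)
    linarith
  let F : G → (ℕ →ᵇ ℝ) := fun x =>
    BoundedContinuousFunction.ofNormedAddCommGroup (fun j => f j x)
      continuous_of_discreteTopology _ (hfbd x)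
  have hFj : ∀ x j, F x j = f j x := fun x j => rfl
  have hFc : Continuous F := by
    rw [Metric.continuous_iff']
    intro x ε hε
    obtain ⟨k, hk⟩ := exists_pow_lt_of_lt_one (show 0 < ε / 8 by positivity)
      (show (1 / 2 : ℝ) < 1 by norm_num)
    have h1 : ∀ᶠ y in 𝓝 x, ∀ j ∈ Finset.range (s k).b, |H k j y - H k j x| < ε / 4 := by
      refine (Filter.eventually_all_finset _).2 (fun j _ => ?_)
      have := ((hP k).1.cont j).continuousAt (x := x)
      have h2 := Metric.continuousAt_iff'.1 this (ε / 4) (by positivity)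
      exact h2
    filter_upwards [h1] with y hy
    have h2 : dist (F y) (F x) ≤ ε / 2 := by
      refine (BoundedContinuousFunction.dist_le (by positivity)).2 (fun j => ?_)
      rw [Real.dist_eq, hFj, hFj]
      have a1 := hfH k j y
      have a2 := hfH k j x
      have a3 := hB1 k
      have a4 : |H k j y - H k j x| ≤ ε / 4 := by
        by_cases hj : j < (s k).b
        · exact (hy j (Finset.mem_range.2 hj)).le
        · have e1 : H k j y = 0 := (hP k).1.zero j (not_lt.1 hj) y
          have e2 : H k j x = 0 := (hP k).1.zero j (not_lt.1 hj) x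
          rw [e1, e2, sub_zero, abs_zero]
          positivity
      have a5 := abs_le.1 a1
      have a6 := abs_le.1 a2
      have a7 := abs_le.1 a4
      exact abs_le.2 ⟨by linarith [a5.1, a6.2, a7.1], by linarith [a5.2, a6.1, a7.2]⟩
    linarith
  have hbmono : ∀ k n, (s k).b ≤ (s (k + n)).b := by
    intro k n
    induction n with
    | zero => exact le_rfl
    | succ n ih => exact ih.trans (hR (k + n)).1
  have hpos : ∀ k j x, j < (s k).b → 0 < H k j x → 0 < f j x := by
    intro k j x hj hx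
    have key : ∀ n, (1 / 2 + (1 / 2) ^ (n + 1)) * H k j x ≤ H (k + n) j x := by
      intro n
      induction n with
      | zero => simp; linarith
      | succ n ih =>
        have h1 := (hR (k + n)).2.2.2.1 j (lt_of_lt_of_le hj (hbmono k n)) x
        have h2 : |H (k + (n + 1)) j x - H (k + n) j x| ≤ (1 / 2) ^ (k + n + 2) * H (k + n) j x :=
          h1
        have h3 : (1 / 2 : ℝ) ^ (k + n + 2) ≤ (1 / 2) ^ (n + 2) := half_pow_le (by omega)
        have h4 : 0 ≤ H (k + n) j x := (hP (k + n)).1.nonneg j x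
        have h5 := (abs_le.1 h2).1
        have h6 : (1 / 2 : ℝ) ^ (k + n + 2) * H (k + n) j x ≤ (1 / 2) ^ (n + 2) * H (k + n) j x :=
          mul_le_mul_of_nonneg_right h3 h4
        set t : ℝ := (1 / 2) ^ (n + 1) with ht
        have ht0 : 0 < t := by positivity
        have ht1 : t ≤ 1 / 2 := by
          rw [ht, pow_succ]
          have : (1 / 2 : ℝ) ^ n ≤ 1 := pow_le_one₀ (by norm_num) (by norm_num)
          linarith
        have e2 : (1 / 2 : ℝ) ^ (n + 2) = t / 2 := by rw [ht, pow_succ, pow_succ]; ring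
        have e3 : (1 / 2 : ℝ) ^ (n + 1 + 1) = t / 2 := by rw [ht, pow_succ, pow_succ]; ring
        rw [e2] at h6
        rw [e3]
        have h7 : (1 - t / 2) * H (k + n) j x ≤ H (k + (n + 1)) j x := by linarith
        have h8 : (1 - t / 2) * ((1 / 2 + t) * H k j x) ≤ (1 - t / 2) * H (k + n) j x :=
          mul_le_mul_of_nonneg_left ih (by linarith)
        have h9 : (1 / 2 + t / 2) ≤ (1 - t / 2) * (1 / 2 + t) := by nlinarith
        have h10 := mul_le_mul_of_nonneg_right h9 hx.le
        linarith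
    have h1 : (1 / 2) * H k j x ≤ f j x := by
      refine ge_of_tendsto (hf j x) ?_
      filter_upwards [eventually_ge_atTop k] with n hn
      obtain ⟨i, rfl⟩ := Nat.exists_eq_add_of_le hn
      have := key i
      have h2 : (0 : ℝ) < (1 / 2) ^ (i + 1) := by positivity
      nlinarith
    linarith
  have hzero : ∀ k j x, j < (s k).b → H k j x = 0 → f j x = 0 := by
    intro k j x hj hx
    have key : ∀ n, H (k + n) j x = 0 := by
      intro n
      induction n with
      | zero => exact hx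
      | succ n ih =>
        have h1 : |H (k + (n + 1)) j x - H (k + n) j x| ≤ (1 / 2) ^ (k + n + 2) * H (k + n) j x :=
          (hR (k + n)).2.2.2.1 j (lt_of_lt_of_le hj (hbmono k n)) x
        rw [ih, mul_zero, sub_zero] at h1
        exact abs_nonpos_iff.1 h1
    refine tendsto_nhds_unique (hf j x) (tendsto_const_nhds.congr' ?_)
    filter_upwards [eventually_ge_atTop k] with n hn
    obtain ⟨i, rfl⟩ := Nat.exists_eq_add_of_le hn
    exact (key i).symm
  refine ⟨F, hFc, ?_, ?_⟩
  · intro x y hxy hne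
    by_contra hxA
    obtain ⟨k, hk⟩ := exists_pow_lt_of_lt_one (dist_pos.2 hne) (show (1 / 2 : ℝ) < 1 by norm_num)
    obtain ⟨j, hj1, hj2, hj3⟩ := (hR k).2.2.2.2.1 x hxA
    have h1 : 0 < f j x := hpos (k + 1) j x hj2 hj3
    have h2 : f j x = f j y := by rw [← hFj, ← hFj, hxy]
    have h3 : 0 < H (k + 1) j y := by
      refine lt_of_le_of_ne ((hP (k + 1)).1.nonneg j y) (fun h => ?_)
      have := hzero (k + 1) j y hj2 h.symm
      linarith
    have h4 := (hR k).2.2.2.2.2 j hj1 x y hj3 h3
    linarith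
  · intro ε hε
    obtain ⟨k, hk⟩ := exists_pow_lt_of_lt_one hε (show (1 / 2 : ℝ) < 1 by norm_num)
    set b := (s k).b with hb
    let proj : range F → (Fin b → ℝ) := fun y j => y.1 j
    have hproj : Continuous proj :=
      continuous_pi (fun j => (BoundedContinuousFunction.lipschitz_eval_const (j : ℕ)).continuous.comp
        continuous_subtype_val)
    let ι := {t : Finset (Fin b) × (Fin b → ℤ) // t.1.card ≤ 2}
    let W : ι → Set (range F) := fun t => proj ⁻¹' (UU b k t.1.1 t.1.2)
    have hWo : ∀ t, IsOpen (W t) := fun t => (UU_open _ _ _ _).preimage hproj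
    have hWc : ∀ y, ∃ t, y ∈ W t := by
      rintro ⟨_, x, rfl⟩
      have h1 := (hP k).2.2.2 x (fun j => f j x) (fun j => hfH k j x)
      obtain ⟨t, ht⟩ := mem_iUnion.1 h1
      exact ⟨t, ht⟩
    have hcomp : CompactSpace (range F) := isCompact_iff_compactSpace.1 (isCompact_range hFc)
    obtain ⟨T, hT⟩ := isCompact_univ.elim_finite_subcover W hWo
      (fun y _ => mem_iUnion.2 (hWc y))
    let e := T.equivFin
    refine ⟨T.card, fun j => W (e.symm j).1, fun j => hWo _, ?_, ?_, ?_⟩
    · intro j a ha c hc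
      refine lt_of_le_of_lt ?_ hk
      change dist a.1 c.1 ≤ _
      refine (BoundedContinuousFunction.dist_le (by positivity)).2 (fun i => ?_)
      rw [Real.dist_eq]
      by_cases hi : i < b
      · exact UU_small ha hc ⟨i, hi⟩
      · obtain ⟨_, x, rfl⟩ := a
        obtain ⟨_, x', rfl⟩ := c
        change |f i x - f i x'| ≤ _
        have a1 := hfH k i x
        have a2 := hfH k i x'
        have e1 : H k i x = 0 := (hP k).1.zero i (not_lt.1 hi) x
        have e2 : H k i x' = 0 := (hP k).1.zero i (not_lt.1 hi) x'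
        rw [e1, sub_zero] at a1
        rw [e2, sub_zero] at a2
        have a3 := hf0 i x
        have a4 := hf0 i x'
        rw [abs_of_nonneg a3] at a1
        rw [abs_of_nonneg a4] at a2
        have a5 := hB1 k
        exact abs_le.2 ⟨by linarith, by linarith⟩
    · intro y
      have hy := hT (mem_univ y)
      simp only [mem_iUnion, exists_prop] at hy
      obtain ⟨t, ht, hyt⟩ := hy
      exact ⟨e ⟨t, ht⟩, by simpa using hyt⟩
    · intro y
      have h1 : ((Finset.range 3 : Finset ℕ) : Set ℕ).ncard = 3 := by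
        rw [Set.ncard_coe_finset]; rfl
      rw [← h1]
      refine Set.ncard_le_ncard_of_injOn (fun j => (e.symm j).1.1.1.card) ?_ ?_
        (Finset.finite_toSet _)
      · intro j _
        have := (e.symm j).1.2
        simp only [Finset.coe_range, mem_Iio]
        omega
      · intro i hi j hj hij
        have h2 := UU_unique (y := proj y) hi hj hij
        have h3 : (e.symm i).1 = (e.symm j).1 := Subtype.ext (Prod.ext h2.1 h2.2)
        exact e.symm.injective (Subtype.ext h3)

end H13.CubeDim
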