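import Mathlib

set_option autoImplicit false

open Set Filter Topology

namespace H13.CubeDim

/-- clamp to `[0,1]` -/
noncomputable def cl (t : ℝ) : ℝ := max 0 (min 1 t)

lemma cl_nonneg (t : ℝ) : 0 ≤ cl t := le_max_left _ _
lemma cl_le_one (t : ℝ) : cl t ≤ 1 := max_le zero_le_one (min_le_left _ _)
lemma cl_of_nonpos {t : ℝ} (h : t ≤ 0) : cl t = 0 := by
  unfold cl
  rw [min_eq_right (by linarith), max_eq_left h]
lemma cl_of_one_le {t : ℝ} (h : 1 ≤ t) : cl t = 1 := by
  unfold cl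
  rw [min_eq_left h, max_eq_right zero_le_one]
lemma cl_of_mem {t : ℝ} (h0 : 0 ≤ t) (h1 : t ≤ 1) : cl t = t := by
  unfold cl
  rw [min_eq_right h1, max_eq_right h0]
lemma cl_cont : Continuous cl := by
  unfold cl
  fun_prop

noncomputable def P1 (q v : ℝ) : ℝ :=
  max (cl (3 * q - 2)) (min (cl (3 * q)) (cl (5 * v - 1 - 2 * cl (3 * q - 1))))
noncomputable def P2 (q v : ℝ) : ℝ :=
  (cl (5 * v - 2 * cl (3 * q - 1)) + cl (5 * v - 2 - 2 * cl (3 * q - 1))) / 2

lemma P1_cont : Continuous (fun p : ℝ × ℝ => P1 p.1 p.2) := by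
  unfold P1
  have h := cl_cont
  fun_prop

lemma P2_cont : Continuous (fun p : ℝ × ℝ => P2 p.1 p.2) := by
  unfold P2
  have h := cl_cont
  fun_prop

lemma P1_mem (q v : ℝ) : 0 ≤ P1 q v ∧ P1 q v ≤ 1 := by
  unfold P1
  constructor
  · exact le_trans (cl_nonneg _) (le_max_left _ _)
  · exact max_le (cl_le_one _) (le_trans (min_le_left _ _) (cl_le_one _))

lemma P2_mem (q v : ℝ) : 0 ≤ P2 q v ∧ P2 q v ≤ 1 := by
  unfold P2
  have h1 := cl_nonneg (5 * v - 2 * cl (3 * q - 1))
  have h2 := cl_nonneg (5 * v - 2 - 2 * cl (3 * q - 1))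
  have h3 := cl_le_one (5 * v - 2 * cl (3 * q - 1))
  have h4 := cl_le_one (5 * v - 2 - 2 * cl (3 * q - 1))
  constructor <;> linarith

lemma P1_left (v : ℝ) : P1 0 v = 0 := by
  unfold P1
  rw [cl_of_nonpos (t := 3 * 0 - 2) (by norm_num), cl_of_nonpos (t := 3 * 0) (by norm_num)]
  rw [min_eq_left (cl_nonneg _)]
  simp

lemma P1_right (v : ℝ) : P1 1 v = 1 := by
  unfold P1
  rw [cl_of_one_le (t := 3 * 1 - 2) (by norm_num)]
  exact max_eq_left (le_trans (min_le_left _ _) (cl_le_one _))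

lemma P2_bot (q : ℝ) : P2 q 0 = 0 := by
  unfold P2
  have h := cl_nonneg (3 * q - 1)
  rw [cl_of_nonpos (t := 5 * 0 - 2 * cl (3 * q - 1)) (by linarith),
    cl_of_nonpos (t := 5 * 0 - 2 - 2 * cl (3 * q - 1)) (by linarith)]
  norm_num

lemma P2_top (q : ℝ) : P2 q 1 = 1 := by
  unfold P2
  have h := cl_le_one (3 * q - 1)
  rw [cl_of_one_le (t := 5 * 1 - 2 * cl (3 * q - 1)) (by linarith),
    cl_of_one_le (t := 5 * 1 - 2 - 2 * cl (3 * q - 1)) (by linarith)]
  norm_num

lemma P_rank (q v : ℝ) : P1 q v = 0 ∨ P1 q v = 1 ∨ P2 q v = 0 ∨ P2 q v = 1 / 2 ∨ P2 q v = 1 ∨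
    (|v - 1 / 2| ≤ 1 / 10 ∧
      (P2 q v = 3 / 4 + 5 / 2 * (v - 1 / 2) ∨ P2 q v = 1 / 4 + 5 / 2 * (v - 1 / 2))) := by
  rcases le_total q (1 / 3) with hq | hq
  · -- block 1
    have e1 : cl (3 * q - 2) = 0 := cl_of_nonpos (by linarith)
    have e2 : cl (3 * q - 1) = 0 := cl_of_nonpos (by linarith)
    rcases le_total v (1 / 5) with hv | hv
    · left
      unfold P1
      rw [e1, e2, cl_of_nonpos (t := 5 * v - 1 - 2 * 0) (by linarith),
        min_eq_right (cl_nonneg _)]
      simp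
    rcases le_total v (2 / 5) with hv2 | hv2
    · right; right; right; left
      unfold P2
      rw [e2, cl_of_one_le (t := 5 * v - 2 * 0) (by linarith),
        cl_of_nonpos (t := 5 * v - 2 - 2 * 0) (by linarith)]
      norm_num
    rcases le_total v (3 / 5) with hv3 | hv3
    · right; right; right; right; right
      refine ⟨abs_le.2 ⟨by linarith, by linarith⟩, Or.inl ?_⟩
      unfold P2
      rw [e2, cl_of_one_le (t := 5 * v - 2 * 0) (by linarith),
        cl_of_mem (t := 5 * v - 2 - 2 * 0) (by linarith) (by linarith)]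
      ring
    · right; right; right; right; left
      unfold P2
      rw [e2, cl_of_one_le (t := 5 * v - 2 * 0) (by linarith),
        cl_of_one_le (t := 5 * v - 2 - 2 * 0) (by linarith)]
      norm_num
  rcases le_total q (2 / 3) with hq2 | hq2
  · -- middle
    have e1 : cl (3 * q - 2) = 0 := cl_of_nonpos (by linarith)
    have e3 : cl (3 * q) = 1 := cl_of_one_le (by linarith)
    set μ := cl (3 * q - 1) with hμ
    rcases le_total (5 * v - 2 * μ) 1 with hv | hv
    · left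
      unfold P1
      rw [e1, e3, ← hμ, cl_of_nonpos (t := 5 * v - 1 - 2 * μ) (by linarith)]
      simp
    rcases le_total (5 * v - 2 * μ) 2 with hv2 | hv2
    · right; right; right; left
      unfold P2
      rw [← hμ, cl_of_one_le (t := 5 * v - 2 * μ) (by linarith),
        cl_of_nonpos (t := 5 * v - 2 - 2 * μ) (by linarith)]
      norm_num
    · right; left
      unfold P1
      rw [e1, e3, ← hμ, cl_of_one_le (t := 5 * v - 1 - 2 * μ) (by linarith)]
      simp
  · -- block 2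
    have e2 : cl (3 * q - 1) = 1 := cl_of_one_le (by linarith)
    have e3 : cl (3 * q) = 1 := cl_of_one_le (by linarith)
    rcases le_total v (2 / 5) with hv | hv
    · right; right; left
      unfold P2
      rw [e2, cl_of_nonpos (t := 5 * v - 2 * 1) (by linarith),
        cl_of_nonpos (t := 5 * v - 2 - 2 * 1) (by linarith)]
      norm_num
    rcases le_total v (3 / 5) with hv2 | hv2
    · right; right; right; right; right
      refine ⟨abs_le.2 ⟨by linarith, by linarith⟩, Or.inr ?_⟩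
      unfold P2
      rw [e2, cl_of_mem (t := 5 * v - 2 * 1) (by linarith) (by linarith),
        cl_of_nonpos (t := 5 * v - 2 - 2 * 1) (by linarith)]
      ring
    rcases le_total v (4 / 5) with hv3 | hv3
    · right; right; right; left
      unfold P2
      rw [e2, cl_of_one_le (t := 5 * v - 2 * 1) (by linarith),
        cl_of_nonpos (t := 5 * v - 2 - 2 * 1) (by linarith)]
      norm_num
    · right; left
      unfold P1
      rw [e2, e3, cl_of_one_le (t := 5 * v - 1 - 2 * 1) (by linarith)]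
      simp [cl_le_one]

noncomputable def rad (q v : ℝ) : ℝ := max |q - 1 / 2| |v - 1 / 2|
noncomputable def mm (q v : ℝ) : ℝ := max (2 * rad q v) (1 / 2)
noncomputable def tau (q v : ℝ) : ℝ := max 0 (4 * rad q v - 1)
noncomputable def U1 (q v : ℝ) : ℝ := 1 / 2 + (q - 1 / 2) / mm q v
noncomputable def U2 (q v : ℝ) : ℝ := 1 / 2 + (v - 1 / 2) / mm q v
noncomputable def E1 (q v : ℝ) : ℝ :=
  (1 - tau q v) * P1 (U1 q v) (U2 q v) + tau q v * U1 q v
noncomputable def E2 (q v : ℝ) : ℝ :=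
  (1 - tau q v) * P2 (U1 q v) (U2 q v) + tau q v * U2 q v

lemma mm_pos (q v : ℝ) : 0 < mm q v := lt_of_lt_of_le (by norm_num) (le_max_right _ _)

lemma rad_cont : Continuous (fun p : ℝ × ℝ => rad p.1 p.2) := by unfold rad; fun_prop
lemma mm_cont : Continuous (fun p : ℝ × ℝ => mm p.1 p.2) := by
  unfold mm
  have := rad_cont
  fun_prop
lemma tau_cont : Continuous (fun p : ℝ × ℝ => tau p.1 p.2) := by
  unfold tau
  have := rad_cont
  fun_prop
lemma U1_cont : Continuous (fun p : ℝ × ℝ => U1 p.1 p.2) := by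
  unfold U1
  have := mm_cont
  have h : ∀ p : ℝ × ℝ, mm p.1 p.2 ≠ 0 := fun p => (mm_pos _ _).ne'
  fun_prop (disch := exact h)
lemma U2_cont : Continuous (fun p : ℝ × ℝ => U2 p.1 p.2) := by
  unfold U2
  have := mm_cont
  have h : ∀ p : ℝ × ℝ, mm p.1 p.2 ≠ 0 := fun p => (mm_pos _ _).ne'
  fun_prop (disch := exact h)
lemma E1_cont : Continuous (fun p : ℝ × ℝ => E1 p.1 p.2) := by
  unfold E1
  have h1 := tau_cont
  have h2 := P1_cont.comp (U1_cont.prodMk U2_cont)
  have h3 := U1_cont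
  simp only [Function.comp_def] at h2
  fun_prop
lemma E2_cont : Continuous (fun p : ℝ × ℝ => E2 p.1 p.2) := by
  unfold E2
  have h1 := tau_cont
  have h2 := P2_cont.comp (U1_cont.prodMk U2_cont)
  have h3 := U2_cont
  simp only [Function.comp_def] at h2
  fun_prop

lemma rad_le {q v : ℝ} (hq0 : 0 ≤ q) (hq1 : q ≤ 1) (hv0 : 0 ≤ v) (hv1 : v ≤ 1) :
    rad q v ≤ 1 / 2 :=
  max_le (abs_le.2 ⟨by linarith, by linarith⟩) (abs_le.2 ⟨by linarith, by linarith⟩)

lemma U1_mem (q v : ℝ) : 0 ≤ U1 q v ∧ U1 q v ≤ 1 := by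
  have h1 : |q - 1 / 2| ≤ rad q v := le_max_left _ _
  have h2 : 2 * rad q v ≤ mm q v := le_max_left _ _
  have h3 := mm_pos q v
  have h4 : |(q - 1 / 2) / mm q v| ≤ 1 / 2 := by
    rw [abs_div, abs_of_pos h3, div_le_iff₀ h3]
    linarith
  obtain ⟨h5, h6⟩ := abs_le.1 h4
  unfold U1
  constructor <;> linarith

lemma U2_mem (q v : ℝ) : 0 ≤ U2 q v ∧ U2 q v ≤ 1 := by
  have h1 : |v - 1 / 2| ≤ rad q v := le_max_right _ _
  have h2 : 2 * rad q v ≤ mm q v := le_max_left _ _
  have h3 := mm_pos q v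
  have h4 : |(v - 1 / 2) / mm q v| ≤ 1 / 2 := by
    rw [abs_div, abs_of_pos h3, div_le_iff₀ h3]
    linarith
  obtain ⟨h5, h6⟩ := abs_le.1 h4
  unfold U2
  constructor <;> linarith

lemma tau_mem {q v : ℝ} (h : rad q v ≤ 1 / 2) : 0 ≤ tau q v ∧ tau q v ≤ 1 :=
  ⟨le_max_left _ _, max_le zero_le_one (by linarith)⟩

lemma E1_mem {q v : ℝ} (h : rad q v ≤ 1 / 2) : 0 ≤ E1 q v ∧ E1 q v ≤ 1 := by
  obtain ⟨t0, t1⟩ := tau_mem h
  obtain ⟨p0, p1⟩ := P1_mem (U1 q v) (U2 q v)
  obtain ⟨u0, u1⟩ := U1_mem q v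
  unfold E1
  constructor
  · have := mul_nonneg (sub_nonneg.2 t1) p0
    have := mul_nonneg t0 u0
    linarith
  · have := mul_le_mul_of_nonneg_left p1 (sub_nonneg.2 t1)
    have := mul_le_mul_of_nonneg_left u1 t0
    linarith

lemma E2_mem {q v : ℝ} (h : rad q v ≤ 1 / 2) : 0 ≤ E2 q v ∧ E2 q v ≤ 1 := by
  obtain ⟨t0, t1⟩ := tau_mem h
  obtain ⟨p0, p1⟩ := P2_mem (U1 q v) (U2 q v)
  obtain ⟨u0, u1⟩ := U2_mem q v
  unfold E2
  constructor
  · have := mul_nonneg (sub_nonneg.2 t1) p0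
    have := mul_nonneg t0 u0
    linarith
  · have := mul_le_mul_of_nonneg_left p1 (sub_nonneg.2 t1)
    have := mul_le_mul_of_nonneg_left u1 t0
    linarith

lemma E_bdry {q v : ℝ} (h : rad q v = 1 / 2) : E1 q v = q ∧ E2 q v = v := by
  have hm : mm q v = 1 := by unfold mm; rw [h]; norm_num
  have ht : tau q v = 1 := by unfold tau; rw [h]; norm_num
  unfold E1 E2 U1 U2
  rw [hm, ht]
  constructor <;> ring

lemma rad_eq_left {v : ℝ} (hv0 : 0 ≤ v) (hv1 : v ≤ 1) : rad 0 v = 1 / 2 := by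
  unfold rad
  rw [max_eq_left]
  · rw [abs_of_neg] <;> norm_num
  · rw [abs_of_neg (by norm_num : (0 : ℝ) - 1 / 2 < 0)]
    exact abs_le.2 ⟨by linarith, by linarith⟩

lemma rad_eq_right {v : ℝ} (hv0 : 0 ≤ v) (hv1 : v ≤ 1) : rad 1 v = 1 / 2 := by
  unfold rad
  rw [max_eq_left]
  · rw [abs_of_pos] <;> norm_num
  · rw [abs_of_pos (by norm_num : 0 < (1 : ℝ) - 1 / 2)]
    exact abs_le.2 ⟨by linarith, by linarith⟩

lemma rad_eq_bot {q : ℝ} (hq0 : 0 ≤ q) (hq1 : q ≤ 1) : rad q 0 = 1 / 2 := by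
  unfold rad
  rw [max_comm]
  exact rad_eq_left hq0 hq1

lemma rad_eq_top {q : ℝ} (hq0 : 0 ≤ q) (hq1 : q ≤ 1) : rad q 1 = 1 / 2 := by
  unfold rad
  rw [max_comm]
  exact rad_eq_right hq0 hq1

lemma aux_one {x : ℝ} (hx : x ≠ 0) : 1 / 2 + x / (2 * x) = 1 := by
  field_simp
  norm_num

lemma aux_zero {x : ℝ} (hx : x ≠ 0) : 1 / 2 + x / (2 * -x) = 0 := by
  field_simp
  norm_num

lemma E_rank {q v : ℝ} (h : rad q v ≤ 1 / 2) :
    E1 q v = 0 ∨ E1 q v = 1 ∨ E2 q v = 0 ∨ E2 q v = 1 / 2 ∨ E2 q v = 1 ∨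
    (|v - 1 / 2| ≤ 1 / 20 ∧
      (E2 q v = 3 / 4 + 5 * (v - 1 / 2) ∨ E2 q v = 1 / 4 + 5 * (v - 1 / 2))) := by
  rcases le_total (rad q v) (1 / 4) with hr | hr
  · have ht : tau q v = 0 := max_eq_left (by linarith)
    have hm : mm q v = 1 / 2 := max_eq_right (by linarith)
    have hE1 : E1 q v = P1 (U1 q v) (U2 q v) := by unfold E1; rw [ht]; ring
    have hE2 : E2 q v = P2 (U1 q v) (U2 q v) := by unfold E2; rw [ht]; ring
    have hU : U2 q v - 1 / 2 = 2 * (v - 1 / 2) := by unfold U2; rw [hm]; ring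
    rw [hE1, hE2]
    rcases P_rank (U1 q v) (U2 q v) with h1 | h1 | h1 | h1 | h1 | ⟨h0, h1⟩
    · exact Or.inl h1
    · exact Or.inr (Or.inl h1)
    · exact Or.inr (Or.inr (Or.inl h1))
    · exact Or.inr (Or.inr (Or.inr (Or.inl h1)))
    · exact Or.inr (Or.inr (Or.inr (Or.inr (Or.inl h1))))
    · right; right; right; right; right
      rw [hU] at h0 h1
      constructor
      · rw [abs_mul, abs_of_pos (by norm_num : (0 : ℝ) < 2)] at h0
        linarith
      · rcases h1 with h1 | h1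
        · left; rw [h1]; ring
        · right; rw [h1]; ring
  · have hr0 : 0 < rad q v := by linarith
    have hm : mm q v = 2 * rad q v := max_eq_left (by linarith)
    have key : U1 q v = 0 ∨ U1 q v = 1 ∨ U2 q v = 0 ∨ U2 q v = 1 := by
      unfold U1 U2
      rw [hm]
      rcases max_choice |q - 1 / 2| |v - 1 / 2| with h1 | h1
      · have h2 : rad q v = |q - 1 / 2| := h1
        rcases abs_choice (q - 1 / 2) with h3 | h3
        · right; left
          rw [h2, h3] at hr0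
          rw [h2, h3]
          exact aux_one hr0.ne'
        · left
          rw [h2, h3] at hr0
          rw [h2, h3]
          exact aux_zero (by intro h; rw [h] at hr0; norm_num at hr0)
      · have h2 : rad q v = |v - 1 / 2| := h1
        rcases abs_choice (v - 1 / 2) with h3 | h3
        · right; right; right
          rw [h2, h3] at hr0
          rw [h2, h3]
          exact aux_one hr0.ne'
        · right; right; left
          rw [h2, h3] at hr0
          rw [h2, h3]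
          exact aux_zero (by intro h; rw [h] at hr0; norm_num at hr0)
    rcases key with h1 | h1 | h1 | h1
    · left
      unfold E1
      rw [h1, P1_left]; ring
    · right; left
      unfold E1
      rw [h1, P1_right]; ring
    · right; right; left
      unfold E2
      rw [h1, P2_bot]; ring
    · right; right; right; right; left
      unfold E2
      rw [h1, P2_top]; ring

end H13.CubeDim
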