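import Mathlib

set_option autoImplicit false

open Set Filter Topology

namespace H13.CubeDim

lemma dep_seq {α : Type*} (P : ℕ → α → Prop) (R : ℕ → α → α → Prop) (h0 : ∃ a, P 0 a)
    (hs : ∀ n a, P n a → ∃ b, P (n + 1) b ∧ R n a b) :
    ∃ f : ℕ → α, (∀ n, P n (f n)) ∧ ∀ n, R n (f n) (f (n + 1)) := by
  classical
  choose a0 ha0 using h0
  have hs' : ∀ n (a : {a // P n a}), ∃ b : {b // P (n + 1) b}, R n a.1 b.1 := by
    intro n a
    obtain ⟨b, hb, hr⟩ := hs n a.1 a.2
    exact ⟨⟨b, hb⟩, hr⟩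
  choose g hg using hs'
  let F : (n : ℕ) → {a // P n a} := fun n => Nat.rec ⟨a0, ha0⟩ (fun n a => g n a) n
  exact ⟨fun n => (F n).1, fun n => (F n).2, fun n => hg n (F n)⟩

variable {G : Type*} [MetricSpace G]

/-- every point has arbitrarily small neighbourhoods with boundary in `A` -/
def Rich (A : Set G) : Prop :=
  ∀ x : G, ∀ N ∈ 𝓝 x, ∃ V, IsOpen V ∧ x ∈ V ∧ closure V ⊆ N ∧ frontier V ⊆ A

lemma rich_compact {A : Set G} (hA : Rich A) {N : Set G} (hN : IsOpen N) {K : Set G}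
    (hK : IsCompact K) (hKN : K ⊆ N) :
    ∃ V, IsOpen V ∧ K ⊆ V ∧ closure V ⊆ N ∧ frontier V ⊆ A := by
  suffices h : ∃ V, IsOpen V ∧ K ⊆ V ∧ closure V ⊆ N ∧ frontier V ⊆ A from h
  refine hK.induction_on (p := fun s => ∃ V, IsOpen V ∧ s ⊆ V ∧ closure V ⊆ N ∧ frontier V ⊆ A)
    ?_ ?_ ?_ ?_
  · exact ⟨∅, isOpen_empty, subset_rfl, by simp, by simp⟩
  · rintro s t hst ⟨V, h1, h2, h3⟩
    exact ⟨V, h1, hst.trans h2, h3⟩
  · rintro s t ⟨V, h1, h2, h3, h4⟩ ⟨W, k1, k2, k3, k4⟩
    refine ⟨V ∪ W, h1.union k1, union_subset_union h2 k2, ?_, ?_⟩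
    · rw [closure_union]; exact union_subset h3 k3
    · refine (frontier_union_subset V W).trans ?_
      rintro x (hx | hx)
      · exact h4 hx.1
      · exact k4 hx.2
  · intro x hx
    obtain ⟨V, h1, h2, h3, h4⟩ := hA x N (hN.mem_nhds (hKN hx))
    exact ⟨V, mem_nhdsWithin_of_mem_nhds (h1.mem_nhds h2), V, h1, subset_rfl, h3, h4⟩

lemma exists_zero_fun {R : Set G} (hR : IsClosed R) :
    ∃ φ : G → ℝ, Continuous φ ∧ ∀ x, 0 ≤ φ x ∧ (φ x = 0 ↔ x ∈ R) := by
  rcases R.eq_empty_or_nonempty with rfl | hne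
  · exact ⟨fun _ => 1, continuous_const, fun x => ⟨zero_le_one, by simp⟩⟩
  · exact ⟨fun x => Metric.infDist x R, Metric.continuous_infDist_pt R,
      fun x => ⟨Metric.infDist_nonneg, (hR.mem_iff_infDist_zero hne).symm⟩⟩

lemma exists_sep {R S : Set G} (hR : IsClosed R) (hS : IsClosed S) (hd : Disjoint R S) :
    ∃ ρ : G → ℝ, Continuous ρ ∧ ∀ x, 0 ≤ ρ x ∧ ρ x ≤ 1 ∧ (ρ x = 0 ↔ x ∈ R) ∧
      (ρ x = 1 ↔ x ∈ S) := by
  obtain ⟨φ, hφ, hφ'⟩ := exists_zero_fun hR
  obtain ⟨ψ, hψ, hψ'⟩ := exists_zero_fun hS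
  have hpos : ∀ x, 0 < φ x + ψ x := by
    intro x
    rcases (hφ' x).1.lt_or_eq with h | h
    · linarith [(hψ' x).1]
    · have h1 : x ∈ R := (hφ' x).2.1 h.symm
      have h2 : ψ x ≠ 0 := fun h3 => hd.le_bot ⟨h1, (hψ' x).2.1 h3⟩
      have h3 := lt_of_le_of_ne (hψ' x).1 h2.symm
      linarith
  refine ⟨fun x => φ x / (φ x + ψ x), hφ.div (hφ.add hψ) (fun x => (hpos x).ne'), fun x => ?_⟩
  have hp := hpos x
  refine ⟨div_nonneg (hφ' x).1 hp.le, ?_, ?_, ?_⟩
  · rw [div_le_one hp]; linarith [(hψ' x).1]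
  · rw [div_eq_zero_iff, ← (hφ' x).2]
    constructor
    · rintro (h | h)
      · exact h
      · exact absurd h hp.ne'
    · exact Or.inl
  · rw [div_eq_one_iff_eq hp.ne', ← (hψ' x).2]
    constructor
    · intro h; linarith
    · intro h; linarith

lemma exists_exhaust [CompactSpace G] {A : Set G} (hA : Rich A) {N : ℕ → Set G}
    (hmono : Monotone N) (hopen : ∀ m, IsOpen (N m)) :
    ∃ V : ℕ → Set G, (∀ m, IsOpen (V m)) ∧ (∀ m, closure (V m) ⊆ N m) ∧
      (∀ m, frontier (V m) ⊆ A) ∧ (∀ m, closure (V m) ⊆ V (m + 1)) ∧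
      (⋃ m, N m) ⊆ ⋃ m, V m := by
  let C : ℕ → Set G := fun m => (Metric.thickening (1 / ((m : ℝ) + 1)) (N m)ᶜ)ᶜ
  have hC : ∀ m, IsClosed (C m) := fun m => Metric.isOpen_thickening.isClosed_compl
  have hCN : ∀ m, C m ⊆ N m := by
    intro m x hx
    by_contra h
    exact hx (Metric.self_subset_thickening (by positivity) _ h)
  obtain ⟨V, hV, hR⟩ := dep_seq
    (fun m V => IsOpen V ∧ closure V ⊆ N m ∧ frontier V ⊆ A ∧ C m ⊆ V)
    (fun _ V W => closure V ⊆ W)
    (by
      obtain ⟨V, h1, h2, h3, h4⟩ := rich_compact hA (hopen 0) (hC 0).isCompact (hCN 0)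
      exact ⟨V, h1, h3, h4, h2⟩)
    (by
      rintro m V ⟨h1, h2, h3, h4⟩
      obtain ⟨W, k1, k2, k3, k4⟩ := rich_compact hA (hopen (m + 1))
        (K := closure V ∪ C (m + 1)) (isClosed_closure.union (hC _)).isCompact
        (union_subset (h2.trans (hmono (Nat.le_succ m))) (hCN _))
      exact ⟨W, ⟨k1, k3, k4, subset_union_right.trans k2⟩, subset_union_left.trans k2⟩)
  refine ⟨V, fun m => (hV m).1, fun m => (hV m).2.1, fun m => (hV m).2.2.1, hR, ?_⟩
  intro x hx
  obtain ⟨m0, hm0⟩ := mem_iUnion.1 hx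
  have hcl : IsClosed (N m0)ᶜ := (hopen m0).isClosed_compl
  have h1 : x ∉ closure (N m0)ᶜ := by
    rw [hcl.closure_eq]; exact fun h => h hm0
  have h2 : 0 < Metric.infEDist x (N m0)ᶜ := Metric.infEDist_pos_iff_notMem_closure.2 h1
  obtain ⟨δ, hδ0, hδ⟩ : ∃ δ : ℝ, 0 < δ ∧ x ∉ Metric.thickening δ (N m0)ᶜ := by
    obtain ⟨r, hr0, hr⟩ := ENNReal.lt_iff_exists_real_btwn.1 h2
    refine ⟨r, ENNReal.ofReal_pos.1 hr.1, ?_⟩
    rw [Metric.mem_thickening_iff_infEDist_lt]
    exact not_lt.2 hr.2.le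
  obtain ⟨n, hn⟩ := exists_nat_one_div_lt hδ0
  refine mem_iUnion.2 ⟨max n m0, (hV _).2.2.2 ?_⟩
  intro hx'
  apply hδ
  have h3 : (N (max n m0))ᶜ ⊆ (N m0)ᶜ := compl_subset_compl.2 (hmono (le_max_right _ _))
  have h4 : 1 / (((max n m0 : ℕ) : ℝ) + 1) ≤ δ := by
    refine le_trans ?_ hn.le
    apply one_div_le_one_div_of_le (by positivity)
    have : (n : ℝ) ≤ ((max n m0 : ℕ) : ℝ) := by exact_mod_cast le_max_left _ _
    linarith
  exact Metric.thickening_mono h4 _ (Metric.thickening_subset_of_subset _ h3 hx')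

/-- the critical levels -/
noncomputable def cc (m : ℕ) : ℝ := 3 / 4 * (1 / 2) ^ m

lemma cc_pos (m : ℕ) : 0 < cc m := by unfold cc; positivity

lemma cc_le {a b : ℕ} (h : a ≤ b) : cc b ≤ cc a := by
  unfold cc
  have : (1 / 2 : ℝ) ^ b ≤ (1 / 2) ^ a := pow_le_pow_of_le_one (by norm_num) (by norm_num) h
  linarith

lemma two_cc {a b : ℕ} (h : a < b) : 2 * cc b ≤ cc a := by
  have h1 := cc_le (Nat.succ_le_of_lt h)
  have h2 : 2 * cc (a + 1) = cc a := by unfold cc; rw [pow_succ]; ring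
  have h3 : a.succ = a + 1 := rfl
  rw [h3] at h1
  linarith

lemma cc_summable : Summable cc := summable_geometric_two.mul_left _

lemma cc_tail (M : ℕ) : ∑' i, cc (i + (M + 1)) = cc M := by
  have h : ∀ i, cc (i + (M + 1)) = (3 / 4 * (1 / 2) ^ (M + 1)) * (1 / 2) ^ i := by
    intro i; unfold cc; rw [pow_add]; ring
  simp_rw [h]
  rw [tsum_mul_left, tsum_geometric_two]
  unfold cc
  rw [pow_succ]
  ring

lemma exists_v [CompactSpace G] {A : Set G} (hA : Rich A) {N : ℕ → Set G}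
    (hmono : Monotone N) (hopen : ∀ m, IsOpen (N m)) (m0 : ℕ) :
    ∃ v : G → ℝ, Continuous v ∧ (∀ x, 0 ≤ v x) ∧ (∀ x, v x = 0 ↔ x ∉ ⋃ m, N m) ∧
      (∀ x, v x ≤ 2 * (1 / 2) ^ m0) ∧ (∀ x m, (1 / 2) ^ (m + 1) ≤ v x → x ∈ N (m + 1)) ∧
      (∀ x m, v x = cc m → x ∈ A) := by
  classical
  let N' : ℕ → Set G := fun m => if m < m0 then ∅ else N m
  have hmono' : Monotone N' := by
    intro a b hab
    by_cases ha : a < m0
    · simp [N', ha]
    · have hb : ¬ b < m0 := by omega
      simp only [N', ha, hb, if_false]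
      exact hmono hab
  have hopen' : ∀ m, IsOpen (N' m) := by
    intro m
    by_cases ha : m < m0
    · simp [N', ha]
    · simp only [N', ha, if_false]; exact hopen m
  have hsub' : ∀ m, N' m ⊆ N m := by
    intro m
    by_cases ha : m < m0
    · simp [N', ha]
    · simp only [N', ha, if_false]; exact subset_rfl
  have hU : (⋃ m, N' m) = ⋃ m, N m := by
    apply Subset.antisymm
    · exact iUnion_mono hsub'
    · intro x hx
      obtain ⟨m, hm⟩ := mem_iUnion.1 hx
      refine mem_iUnion.2 ⟨max m m0, ?_⟩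
      have : ¬ max m m0 < m0 := by omega
      simp only [N', this, if_false]
      exact hmono (le_max_left _ _) hm
  obtain ⟨V, hV1, hV2, hV3, hV4, hV5⟩ := exists_exhaust hA hmono' hopen'
  -- the separating functions
  let S : ℕ → Set G := fun m => Nat.casesOn m ∅ (fun k => closure (V k))
  have hS : ∀ m, IsClosed (S m) := by
    intro m
    cases m with
    | zero => exact isClosed_empty
    | succ k => exact isClosed_closure
  have hSV : ∀ m, S m ⊆ V m := by
    intro m
    cases m with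
    | zero => exact empty_subset _
    | succ k => exact hV4 k
  have hsep : ∀ m, ∃ ρ : G → ℝ, Continuous ρ ∧ ∀ x, 0 ≤ ρ x ∧ ρ x ≤ 1 ∧
      (ρ x = 0 ↔ x ∈ (V m)ᶜ) ∧ (ρ x = 1 ↔ x ∈ S m) := by
    intro m
    refine exists_sep (hV1 m).isClosed_compl (hS m) ?_
    rw [Set.disjoint_left]
    intro x hx hx'
    exact hx (hSV m hx')
  choose ρ hρc hρ using hsep
  have hVmono : ∀ {a b : ℕ}, a ≤ b → V a ⊆ V b := by
    intro a b hab
    induction hab with
    | refl => exact subset_rfl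
    | step _ ih => exact ih.trans (subset_closure.trans (hV4 _))
  have hclmono : ∀ {a b : ℕ}, a < b → closure (V a) ⊆ S b := by
    intro a b hab
    obtain ⟨k, rfl⟩ : ∃ k, b = k + 1 := ⟨b - 1, by omega⟩
    exact closure_mono (hVmono (by omega))
  let v : G → ℝ := fun x => ∑' m, cc m * ρ m x
  have hbound : ∀ m x, ‖cc m * ρ m x‖ ≤ cc m := by
    intro m x
    rw [Real.norm_eq_abs, abs_of_nonneg (mul_nonneg (cc_pos m).le (hρ m x).1)]
    exact mul_le_of_le_one_right (cc_pos m).le (hρ m x).2.1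
  have hsummable : ∀ x, Summable (fun m => cc m * ρ m x) := fun x =>
    Summable.of_norm_bounded cc_summable (fun m => hbound m x)
  have hvc : Continuous v :=
    continuous_tsum (fun m => (continuous_const.mul (hρc m))) cc_summable hbound
  -- value
  have hout : ∀ x, x ∉ ⋃ m, N m → v x = 0 := by
    intro x hx
    have : ∀ m, cc m * ρ m x = 0 := by
      intro m
      have h1 : x ∉ V m := fun h => hx (mem_iUnion.2 ⟨m, hsub' m (hV2 m (subset_closure h))⟩)
      rw [(hρ m x).2.2.1.2 h1, mul_zero]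
    simp only [v, this, tsum_zero]
  have hin : ∀ x, x ∈ (⋃ m, N m) → ∃ M, x ∈ closure (V M) ∧ v x = cc M * (1 + ρ M x) ∧
      ρ M x < 1 := by
    intro x hx
    have hex : ∃ M, x ∈ closure (V M) := by
      rw [← hU] at hx
      obtain ⟨M, hM⟩ := mem_iUnion.1 (hV5 hx)
      exact ⟨M, subset_closure hM⟩
    obtain ⟨M, hM, hmin⟩ : ∃ M, x ∈ closure (V M) ∧ ∀ k, k < M → x ∉ closure (V k) :=
      ⟨Nat.find hex, Nat.find_spec hex, fun k hk => Nat.find_min hex hk⟩
    refine ⟨M, hM, ?_, ?_⟩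
    · have h1 := (hsummable x).sum_add_tsum_nat_add (M + 1)
      change _ = v x at h1
      rw [← h1, Finset.sum_range_succ]
      have h2 : ∑ i ∈ Finset.range M, cc i * ρ i x = 0 := by
        apply Finset.sum_eq_zero
        intro i hi
        have h3 : x ∉ V i := fun h => hmin i (Finset.mem_range.1 hi) (subset_closure h)
        rw [(hρ i x).2.2.1.2 h3, mul_zero]
      have h3 : ∀ i, cc (i + (M + 1)) * ρ (i + (M + 1)) x = cc (i + (M + 1)) := by
        intro i
        rw [(hρ (i + (M + 1)) x).2.2.2.2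
          (hclmono (show M < i + (M + 1) by omega) hM), mul_one]
      simp_rw [h3]
      rw [h2, cc_tail]
      ring
    · refine lt_of_le_of_ne (hρ M x).2.1 (fun h => ?_)
      have h1 := (hρ M x).2.2.2.1 h
      cases M with
      | zero => exact h1
      | succ k => exact hmin k (by omega) h1
  refine ⟨v, hvc, ?_, ?_, ?_, ?_, ?_⟩
  · intro x
    exact tsum_nonneg (fun m => mul_nonneg (cc_pos m).le (hρ m x).1)
  · intro x
    constructor
    · intro h hx
      obtain ⟨M, -, h1, -⟩ := hin x hx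
      have h2 := cc_pos M
      have h3 := (hρ M x).1
      have : 0 < v x := by rw [h1]; positivity
      linarith
    · exact hout x
  · intro x
    by_cases hx : x ∈ ⋃ m, N m
    · obtain ⟨M, h0, h1, h2⟩ := hin x hx
      have hM : m0 ≤ M := by
        by_contra hlt
        have := hV2 M h0
        simp only [N', not_le.1 hlt, if_true] at this
        exact this
      have h3 := cc_le hM
      have h4 := cc_pos M
      have h5 : v x ≤ cc M * 2 := by
        rw [h1]; exact mul_le_mul_of_nonneg_left (by linarith) h4.le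
      have h6 : cc m0 = 3 / 4 * (1 / 2) ^ m0 := rfl
      have h7 : (0 : ℝ) < (1 / 2) ^ m0 := by positivity
      linarith
    · rw [hout x hx]; positivity
  · intro x m hm
    by_contra hx
    have hpos : (0 : ℝ) < (1 / 2) ^ (m + 1) := by positivity
    by_cases hx' : x ∈ ⋃ m, N m
    · obtain ⟨M, h0, h1, h2⟩ := hin x hx'
      have hM : m + 1 < M := by
        by_contra hlt
        exact hx (hmono (not_lt.1 hlt) (hsub' M (hV2 M h0)))
      have h3 := two_cc hM
      have h4 := cc_pos M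
      have h5 : v x ≤ cc M * 2 := by
        rw [h1]; exact mul_le_mul_of_nonneg_left (by linarith) h4.le
      have h6 : cc (m + 1) = 3 / 4 * (1 / 2) ^ (m + 1) := rfl
      linarith
    · rw [hout x hx'] at hm
      linarith
  · intro x m hm
    have hc := cc_pos m
    have hx : x ∈ ⋃ m, N m := by
      by_contra h
      rw [hout x h] at hm
      linarith
    obtain ⟨M, h0, h1, h2⟩ := hin x hx
    have h3 := (hρ M x).1
    have h4 := cc_pos M
    have hMm : M = m := by
      rcases lt_trichotomy M m with h | h | h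
      · have h5 := two_cc h
        have : cc M ≤ v x := by
          rw [h1]; nlinarith
        linarith
      · exact h
      · have h5 := two_cc h
        have : v x < 2 * cc M := by
          rw [h1]; nlinarith
        linarith
    subst hMm
    have h5 : ρ M x = 0 := by
      have : cc M * ρ M x = 0 := by rw [hm] at h1; linarith
      rcases mul_eq_zero.1 this with h | h
      · exact absurd h h4.ne'
      · exact h
    have h6 : x ∉ V M := (hρ M x).2.2.1.1 h5
    exact hV3 M ⟨h0, by rwa [(hV1 M).interior_eq]⟩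

end H13.CubeDim
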