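import Pool.Agent.H13.CubeDim.TLim
import Pool.Agent.H13.CubeDim.Topo

set_option autoImplicit false

open Set Filter Topology

namespace H13.CubeDim

variable {G : Type*} [MetricSpace G]

lemma exists_cells [CompactSpace G] {A : Set G} (hA : Rich A) {ε : ℝ} (hε : 0 < ε) :
    ∃ (r : ℕ) (Q : ℕ → Set G), (∀ i, IsOpen (Q i)) ∧ (∀ i j, ∀ x, x ∈ Q i → x ∈ Q j → i = j) ∧
      (∀ i, ∀ x ∈ Q i, ∀ y ∈ Q i, dist x y < ε) ∧ (∀ i, r ≤ i → Q i = ∅) ∧
      (∀ x, x ∉ A → ∃ i, i < r ∧ x ∈ Q i) := by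
  classical
  have h1 : ∀ x : G, ∃ V, IsOpen V ∧ x ∈ V ∧ closure V ⊆ Metric.ball x (ε / 2) ∧
      frontier V ⊆ A := fun x => hA x _ (Metric.ball_mem_nhds x (by linarith))
  choose V hV1 hV2 hV3 hV4 using h1
  obtain ⟨t, ht⟩ := isCompact_univ.elim_finite_subcover V hV1
    (fun x _ => mem_iUnion.2 ⟨x, hV2 x⟩)
  let e := t.equivFin
  let W : ℕ → Set G := fun i => if h : i < t.card then V (e.symm ⟨i, h⟩).1 else ∅
  have hW1 : ∀ i, IsOpen (W i) := by
    intro i
    by_cases h : i < t.card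
    · simp only [W, h, dif_pos]; exact hV1 _
    · simp [W, h]
  have hW4 : ∀ i, frontier (W i) ⊆ A := by
    intro i
    by_cases h : i < t.card
    · simp only [W, h, dif_pos]; exact hV4 _
    · simp [W, h]
  have hW3 : ∀ i, ∀ x ∈ W i, ∀ y ∈ W i, dist x y < ε := by
    intro i x hx y hy
    by_cases h : i < t.card
    · simp only [W, h, dif_pos] at hx hy
      have a := hV3 _ (subset_closure hx)
      have b := hV3 _ (subset_closure hy)
      rw [Metric.mem_ball] at a b
      calc dist x y ≤ dist x _ + dist y _ := dist_triangle_right _ _ _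
        _ < ε / 2 + ε / 2 := add_lt_add a b
        _ = ε := by ring
    · simp [W, h] at hx
  have hWc : ∀ x, ∃ i, i < t.card ∧ x ∈ W i := by
    intro x
    have hx := ht (mem_univ x)
    simp only [mem_iUnion, exists_prop] at hx
    obtain ⟨y, hy, hxy⟩ := hx
    refine ⟨(e ⟨y, hy⟩).1, (e ⟨y, hy⟩).2, ?_⟩
    simp only [W, (e ⟨y, hy⟩).2, dif_pos, Fin.eta, Equiv.symm_apply_apply]
    exact hxy
  refine ⟨t.card, fun i => W i ∩ ⋂ l ∈ Finset.range i, (closure (W l))ᶜ, ?_, ?_, ?_, ?_, ?_⟩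
  · intro i
    refine (hW1 i).inter ?_
    exact isOpen_biInter_finset (fun l _ => isClosed_closure.isOpen_compl)
  · have key : ∀ i j, ∀ x, x ∈ W i ∩ ⋂ l ∈ Finset.range i, (closure (W l))ᶜ →
        x ∈ W j ∩ ⋂ l ∈ Finset.range j, (closure (W l))ᶜ → ¬ i < j := by
      intro i j x hi hj hij
      have := mem_iInter₂.1 hj.2 i (Finset.mem_range.2 hij)
      exact this (subset_closure hi.1)
    intro i j x hi hj
    have a := key i j x hi hj
    have b := key j i x hj hi
    omega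
  · intro i x hx y hy
    exact hW3 i x hx.1 y hy.1
  · intro i hi
    have : ¬ i < t.card := by omega
    simp [W, this]
  · intro x hx
    have hex : ∃ i, i < t.card ∧ x ∈ W i := hWc x
    obtain ⟨i, hi, hmin⟩ : ∃ i, (i < t.card ∧ x ∈ W i) ∧ ∀ l, l < i → ¬ (l < t.card ∧ x ∈ W l) :=
      ⟨Nat.find hex, Nat.find_spec hex, fun l hl => Nat.find_min hex hl⟩
    refine ⟨i, hi.1, hi.2, ?_⟩
    refine mem_iInter₂.2 (fun l hl hcl => ?_)
    have hl' := Finset.mem_range.1 hl
    have h2 : x ∉ W l := fun h => hmin l hl' ⟨lt_trans hl' hi.1, h⟩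
    exact hx (hW4 l ⟨hcl, by rwa [(hW1 l).interior_eq]⟩)

/-- Invariants of a stage of the construction. -/
structure Inv (A : Set G) (b : ℕ) (h : ℕ → G → ℝ) (F : Set G) : Prop where
  cont : ∀ j, Continuous (h j)
  nonneg : ∀ j x, 0 ≤ h j x
  zero : ∀ j, b ≤ j → ∀ x, h j x = 0
  closed : IsClosed F
  sub : F ⊆ A
  rank1 : ∀ x, x ∉ F → ∃ n, ∀ᶠ y in 𝓝 x, ∃ j0, ∀ j, j ≠ j0 → D n (h j y)
  rank2 : ∀ x, ∃ j1 j2, ∀ j, j ≠ j1 → j ≠ j2 → ∃ n, D n (h j x)
  locz : ∀ j x, x ∉ F → h j x = 0 → ∀ᶠ y in 𝓝 x, h j y = 0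

def Good (h : ℕ → G → ℝ) (κ : ℝ) (m : ℕ) (y : G) : Prop :=
  (∃ j0, ∀ j, j ≠ j0 → D m (h j y)) ∧ ∀ j, h j y = 0 ∨ (1 / 2) ^ m ≤ κ * h j y

lemma good_mono {h : ℕ → G → ℝ} {κ : ℝ} {m n : ℕ} (hmn : m ≤ n) {y : G}
    (hg : Good h κ m y) : Good h κ n y := by
  obtain ⟨⟨j0, h1⟩, h2⟩ := hg
  exact ⟨⟨j0, fun j hj => D_mono hmn (h1 j hj)⟩,
    fun j => (h2 j).imp id (fun h3 => (half_pow_le hmn).trans h3)⟩

lemma exists_good {A : Set G} {b : ℕ} {h : ℕ → G → ℝ} {F : Set G} (hI : Inv A b h F) {κ : ℝ}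
    (hκ : 0 < κ) {x : G} (hx : x ∉ F) : ∃ m, ∀ᶠ y in 𝓝 x, Good h κ m y := by
  obtain ⟨n, hn⟩ := hI.rank1 x hx
  have h1 : ∀ j, ∃ m : ℕ, ∀ᶠ y in 𝓝 x, h j y = 0 ∨ (1 / 2) ^ m ≤ κ * h j y := by
    intro j
    rcases (hI.nonneg j x).eq_or_lt with h0 | h0
    · exact ⟨0, (hI.locz j x hx h0.symm).mono (fun y hy => Or.inl hy)⟩
    · obtain ⟨m, hm⟩ := exists_pow_lt_of_lt_one (show 0 < κ * (h j x / 2) by positivity)
        (show (1 / 2 : ℝ) < 1 by norm_num)
      refine ⟨m, ?_⟩
      have h2 : ∀ᶠ y in 𝓝 x, h j x / 2 < h j y :=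
        (hI.cont j).continuousAt.eventually_const_lt (by linarith)
      filter_upwards [h2] with y hy
      right
      exact hm.le.trans (mul_le_mul_of_nonneg_left hy.le hκ.le)
  choose m hm using h1
  let M := max n ((Finset.range b).sup m)
  refine ⟨M, ?_⟩
  have h3 : ∀ᶠ y in 𝓝 x, ∀ j ∈ Finset.range b, h j y = 0 ∨ (1 / 2) ^ m j ≤ κ * h j y :=
    (Filter.eventually_all_finset _).2 (fun j _ => hm j)
  filter_upwards [hn, h3] with y hy1 hy2
  obtain ⟨j0, hj0⟩ := hy1
  refine ⟨⟨j0, fun j hj => D_mono (le_max_left _ _) (hj0 j hj)⟩, fun j => ?_⟩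
  by_cases hj : j < b
  · have hmj : m j ≤ M := (Finset.le_sup (f := m) (Finset.mem_range.2 hj)).trans (le_max_right _ _)
    exact (hy2 j (Finset.mem_range.2 hj)).imp id (fun h4 => (half_pow_le hmj).trans h4)
  · exact Or.inl (hI.zero j (not_lt.1 hj) y)

lemma closed_levels : IsClosed (insert (0 : ℝ) (range cc)) := by
  have h : Tendsto cc atTop (𝓝 0) := by
    have h1 := (tendsto_pow_atTop_nhds_zero_of_lt_one (show (0 : ℝ) ≤ 1 / 2 by norm_num)
      (by norm_num)).const_mul (3 / 4 : ℝ)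
    rw [mul_zero] at h1
    exact h1
  exact h.isCompact_insert_range.isClosed

lemma cc_scaled (m : ℕ) : (2 : ℝ) ^ (m + 1) * cc m = 3 / 2 := by
  unfold cc
  have : (2 : ℝ) ^ m * (1 / 2) ^ m = 1 := by rw [← mul_pow]; norm_num
  calc (2 : ℝ) ^ (m + 1) * (3 / 4 * (1 / 2) ^ m) = 3 / 2 * (2 ^ m * (1 / 2) ^ m) := by
        rw [pow_succ]; ring
    _ = 3 / 2 := by rw [this, mul_one]

/-- The induction step. -/
theorem step [CompactSpace G] {A : Set G} (hA : Rich A) {b : ℕ} {h : ℕ → G → ℝ} {F : Set G}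
    (hI : Inv A b h F) {δ ε κ : ℝ} (hδ : 0 < δ) (hε : 0 < ε) (hκ0 : 0 < κ) (hκ1 : κ < 1) :
    ∃ (b' : ℕ) (h' : ℕ → G → ℝ) (F' : Set G), b ≤ b' ∧ Inv A b' h' F' ∧
      (∀ j x, |h' j x - h j x| ≤ δ) ∧
      (∀ j, j < b → ∀ x, |h' j x - h j x| ≤ κ * h j x) ∧
      (∀ x, x ∉ A → ∃ j, b ≤ j ∧ j < b' ∧ 0 < h' j x) ∧
      (∀ j, b ≤ j → ∀ x y, 0 < h' j x → 0 < h' j y → dist x y < ε) := by
  classical
  obtain ⟨r, Q, hQo, hQd, hQε, hQr, hQc⟩ := exists_cells hA hε
  let O : Set G := Fᶜ ∩ ⋃ i, Q i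
  have hO : IsOpen O := hI.closed.isOpen_compl.inter (isOpen_iUnion hQo)
  let N : ℕ → Set G := fun m => O ∩ interior {y | Good h κ m y}
  have hNmono : Monotone N := fun m n hmn =>
    inter_subset_inter_right _ (interior_mono (fun y hy => good_mono hmn hy))
  have hNopen : ∀ m, IsOpen (N m) := fun m => hO.inter isOpen_interior
  have hNU : (⋃ m, N m) = O := by
    apply Subset.antisymm
    · exact iUnion_subset (fun m => inter_subset_left)
    · intro x hx
      obtain ⟨m, hm⟩ := exists_good hI hκ0 (x := x) (fun h => hx.1 h)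
      exact mem_iUnion.2 ⟨m, hx, mem_interior_iff_mem_nhds.2 hm⟩
  obtain ⟨m0, hm0⟩ := exists_pow_lt_of_lt_one (show 0 < min δ 1 / 4 by positivity)
        (show (1 / 2 : ℝ) < 1 by norm_num)
  obtain ⟨v, hvc, hv0, hvz, hvs, hvr, hvl⟩ := exists_v hA hNmono hNopen m0
  rw [hNU] at hvz
  have hvδ : ∀ x, 2 * v x ≤ δ ∧ v x ≤ 1 := by
    intro x
    have h1 := hvs x
    have h2 := min_le_left δ 1
    have h3 := min_le_right δ 1
    constructor <;> linarith
  -- dichotomy
  have hcase : ∀ x, 0 < v x → ∃ m, Row m (v x) ∧ Good h κ (m + 1) x := by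
    intro x hx
    obtain ⟨m, hm⟩ := exists_row hx (hvδ x).2
    have h1 : x ∈ interior {y | Good h κ (m + 1) y} := (hvr x m hm.1).2
    have h2 : x ∈ {y | Good h κ (m + 1) y} := interior_subset h1
    exact ⟨m, hm, h2⟩
  have hQe : ∀ x, 0 < v x → ∃ i, x ∈ Q i := by
    intro x hx
    have : x ∈ O := by
      by_contra h
      exact hx.ne' ((hvz x).2 h)
    exact mem_iUnion.1 this.2
  let s : G → ℝ := fun x => ∑ j ∈ Finset.range b, h j x
  have hsc : Continuous s := continuous_finsetSum _ (fun j _ => hI.cont j)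
  let h' : ℕ → G → ℝ := fun j x =>
    if j < b then (T (h j x, v x)).1 else if x ∈ Q (j - b) then (T (s x, v x)).2 else 0
  have hold : ∀ {j}, j < b → ∀ x, h' j x = (T (h j x, v x)).1 := by
    intro j hj x
    simp only [h', hj, if_true]
  have hnew : ∀ {j}, b ≤ j → ∀ x, x ∈ Q (j - b) → h' j x = (T (s x, v x)).2 := by
    intro j hj x hx
    simp only [h', not_lt.2 hj, if_false, hx, if_true]
  have hnew0 : ∀ {j}, b ≤ j → ∀ x, x ∉ Q (j - b) → h' j x = 0 := by
    intro j hj x hx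
    simp only [h', not_lt.2 hj, if_false, hx]
  -- values when v = 0
  have hT0 : ∀ q x, v x = 0 → T (q, v x) = (q, v x) := fun q x hx => T_nonpos (by simp [hx])
  have hz_old : ∀ {j}, j < b → ∀ x, v x = 0 → h' j x = h j x := by
    intro j hj x hx
    rw [hold hj, hT0 _ x hx]
  have hz_new : ∀ {j}, b ≤ j → ∀ x, v x = 0 → h' j x = 0 := by
    intro j hj x hx
    by_cases hQ : x ∈ Q (j - b)
    · rw [hnew hj x hQ, hT0 _ x hx]; exact hx
    · exact hnew0 hj x hQ
  have hvpos : ∀ x, v x ≠ 0 → 0 < v x := fun x hx => lt_of_le_of_ne (hv0 x) hx.symm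
  -- closeness
  have hclose : ∀ j, j < b → ∀ x, |h' j x - h j x| ≤ κ * h j x ∧ |h' j x - h j x| ≤ v x := by
    intro j hj x
    by_cases hx : v x = 0
    · rw [hz_old hj x hx]
      simp only [sub_self, abs_zero]
      exact ⟨mul_nonneg hκ0.le (hI.nonneg j x), hv0 x⟩
    · obtain ⟨m, hm, hg⟩ := hcase x (hvpos x hx)
      rw [hold hj]
      have h1 := T_near (p := (h j x, v x)) hm
      constructor
      · rcases hg.2 j with h2 | h2
        · rw [h2, T_fix (p := (0, v x)) hm (D_zero _)]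
          simp
        · exact h1.trans h2
      · exact h1.trans hm.1
  let F' : Set G := v ⁻¹' (insert 0 (range cc))
  have hF'z : ∀ x, x ∉ F' → 0 < v x := fun x hx => hvpos x (fun h => hx (Or.inl h))
  -- description of h' at points with v > 0
  have hdesc : ∀ x m, Row m (v x) → Good h κ (m + 1) x → ∀ i, x ∈ Q i →
      ∃ j0, (∀ j, j ≠ j0 → j ≠ b + i → D (m + 1) (h' j x)) ∧
        (∀ k, (1 / 2) * (1 / 10) ^ k ≤ |(2 : ℝ) ^ (m + 1) * v x - 3 / 2| →
          D (m + 1 + k) (h' j0 x) ∨ D (m + 1 + k) (h' (b + i) x) ∨ b ≤ j0) := by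
    intro x m hm hg i hi
    obtain ⟨⟨j0, hj0⟩, -⟩ := hg
    refine ⟨j0, ?_, ?_⟩
    · intro j hj hji
      by_cases hjb : j < b
      · rw [hold hjb, T_fix (p := (h j x, v x)) hm (hj0 j hj)]
        exact hj0 j hj
      · have : x ∉ Q (j - b) := by
          intro hx
          have := hQd _ _ x hx hi
          omega
        rw [hnew0 (not_lt.1 hjb) x this]
        exact D_zero _
    · intro k hk
      by_cases hjb : j0 < b
      · have hbi : h' (b + i) x = (T (s x, v x)).2 := by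
          apply hnew (Nat.le_add_right _ _)
          simpa using hi
        have hs : s x = h j0 x + ∑ j ∈ (Finset.range b).erase j0, h j x :=
          (Finset.add_sum_erase (Finset.range b) (fun j => h j x) (Finset.mem_range.2 hjb)).symm
        have hD : D (m + 1) (∑ j ∈ (Finset.range b).erase j0, h j x) :=
          D_sum _ _ (fun j hj => hj0 j (Finset.ne_of_mem_erase hj))
        rw [hbi, hs, T_equiv hm hD, hold hjb]
        rcases T_rank (p := (h j0 x, v x)) hm hk with h1 | h1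
        · exact Or.inl h1
        · exact Or.inr (Or.inl h1)
      · exact Or.inr (Or.inr (not_lt.1 hjb))
  refine ⟨b + r, h', F', Nat.le_add_right _ _, ⟨?_, ?_, ?_, ?_, ?_, ?_, ?_, ?_⟩, ?_, ?_, ?_, ?_⟩
  · -- continuity
    intro j
    by_cases hj : j < b
    · have : h' j = fun x => (T (h j x, v x)).1 := funext (hold hj)
      rw [this]
      exact continuous_fst.comp (T_cont.comp ((hI.cont j).prodMk hvc))
    · have : h' j = fun x => if x ∈ Q (j - b) then (T (s x, v x)).2 else 0 := by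
        funext x
        simp only [h', hj, if_false]
      rw [this]
      refine Continuous.if ?_ (continuous_snd.comp (T_cont.comp (hsc.prodMk hvc))) continuous_const
      intro x hx
      have hx1 : x ∈ closure (Q (j - b)) := hx.1
      have hx2 : x ∉ Q (j - b) := by
        have := hx.2
        rwa [show {x | x ∈ Q (j - b)} = Q (j - b) from rfl, (hQo _).interior_eq] at this
      have hx3 : x ∉ ⋃ i, Q i := by
        intro hU
        obtain ⟨i, hi⟩ := mem_iUnion.1 hU
        obtain ⟨y, hy1, hy2⟩ := mem_closure_iff.1 hx1 (Q i) (hQo i) hi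
        have := hQd _ _ y hy1 hy2
        exact hx2 (this ▸ hi)
      have hx4 : v x = 0 := (hvz x).2 (fun h => hx3 h.2)
      rw [hT0 _ x hx4]
      exact hx4
  · -- nonneg
    intro j x
    by_cases hx : v x = 0
    · by_cases hj : j < b
      · rw [hz_old hj x hx]; exact hI.nonneg j x
      · rw [hz_new (not_lt.1 hj) x hx]
    · obtain ⟨m, hm, hg⟩ := hcase x (hvpos x hx)
      by_cases hj : j < b
      · rw [hold hj]
        exact T_nonneg1 (p := (h j x, v x)) hm (hI.nonneg j x)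
      · by_cases hQ : x ∈ Q (j - b)
        · rw [hnew (not_lt.1 hj) x hQ]
          exact le_trans (by positivity) (T_row (p := (s x, v x)) hm).1
        · rw [hnew0 (not_lt.1 hj) x hQ]
  · -- zero
    intro j hj x
    refine hnew0 (by omega) x ?_
    rw [hQr _ (by omega)]
    exact fun h => h
  · exact closed_levels.preimage hvc
  · -- F' ⊆ A
    rintro x (hx | ⟨m, hx⟩)
    · have h1 : x ∉ O := (hvz x).1 hx
      by_contra hxA
      apply h1
      obtain ⟨i, -, hi⟩ := hQc x hxA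
      exact ⟨fun hF => hxA (hI.sub hF), mem_iUnion.2 ⟨i, hi⟩⟩
    · exact hvl x m hx.symm
  · -- rank1
    intro x hx
    have hvx := hF'z x hx
    have hcl := closed_levels.isOpen_compl.mem_nhds (show v x ∈ (insert (0 : ℝ) (range cc))ᶜ from hx)
    obtain ⟨ρ, hρ0, hρ⟩ := Metric.mem_nhds_iff.1 hcl
    obtain ⟨k, hk⟩ := exists_pow_lt_of_lt_one (show 0 < ρ by exact hρ0)
        (show (1 / 10 : ℝ) < 1 by norm_num)
    obtain ⟨M, hM⟩ := exists_pow_lt_of_lt_one (show 0 < v x / 2 by positivity)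
        (show (1 / 2 : ℝ) < 1 by norm_num)
    refine ⟨M + 1 + k, ?_⟩
    have e1 : ∀ᶠ y in 𝓝 x, v x / 2 < v y := hvc.continuousAt.eventually_const_lt (by linarith)
    have e2 : ∀ᶠ y in 𝓝 x, dist (v y) (v x) < ρ / 2 :=
      hvc.continuousAt.eventually (Metric.ball_mem_nhds _ (by linarith))
    filter_upwards [e1, e2] with y hy1 hy2
    have hvy : 0 < v y := by linarith
    obtain ⟨m, hm, hg⟩ := hcase y hvy
    obtain ⟨i, hi⟩ := hQe y hvy
    obtain ⟨j0, hd1, hd2⟩ := hdesc y m hm hg i hi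
    have hmM : m ≤ M := by
      by_contra hlt
      have h1 := half_pow_le (show M ≤ m by omega)
      have h2 := hm.2
      linarith
    have hkk : (1 / 2) * (1 / 10) ^ k ≤ |(2 : ℝ) ^ (m + 1) * v y - 3 / 2| := by
      rw [← cc_scaled m, ← mul_sub, abs_mul, abs_of_pos (pow_pos' (m + 1))]
      have h1 : ρ / 2 ≤ |v y - cc m| := by
        by_contra hlt
        push Not at hlt
        have h2 : dist (cc m) (v x) < ρ := by
          calc dist (cc m) (v x) ≤ dist (cc m) (v y) + dist (v y) (v x) := dist_triangle _ _ _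
            _ < ρ / 2 + ρ / 2 := by
                refine add_lt_add ?_ hy2
                rw [Real.dist_eq, abs_sub_comm]
                exact hlt
            _ = ρ := by ring
        exact hρ h2 (Or.inr ⟨m, rfl⟩)
      have h3 : (1 : ℝ) ≤ 2 ^ (m + 1) := one_le_pow₀ (by norm_num)
      have h4 : |v y - cc m| ≤ 2 ^ (m + 1) * |v y - cc m| :=
        le_mul_of_one_le_left (abs_nonneg _) h3
      linarith
    rcases hd2 k hkk with h1 | h1 | h1
    · refine ⟨b + i, fun j hj => ?_⟩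
      by_cases hjj : j = j0
      · subst hjj; exact D_mono (by omega) h1
      · exact D_mono (by omega) (hd1 j hjj hj)
    · refine ⟨j0, fun j hj => ?_⟩
      by_cases hjj : j = b + i
      · subst hjj; exact D_mono (by omega) h1
      · exact D_mono (by omega) (hd1 j hj hjj)
    · refine ⟨b + i, fun j hj => ?_⟩
      by_cases hjj : j = j0
      · subst hjj
        have : y ∉ Q (j - b) := by
          intro hyQ
          have := hQd _ _ y hyQ hi
          omega
        rw [hnew0 h1 y this]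
        exact D_zero _
      · exact D_mono (by omega) (hd1 j hjj hj)
  · -- rank2
    intro x
    by_cases hx : v x = 0
    · obtain ⟨j1, j2, hj⟩ := hI.rank2 x
      refine ⟨j1, j2, fun j h1 h2 => ?_⟩
      by_cases hjb : j < b
      · rw [hz_old hjb x hx]; exact hj j h1 h2
      · rw [hz_new (not_lt.1 hjb) x hx]; exact ⟨0, D_zero 0⟩
    · obtain ⟨m, hm, hg⟩ := hcase x (hvpos x hx)
      obtain ⟨i, hi⟩ := hQe x (hvpos x hx)
      obtain ⟨j0, hd1, -⟩ := hdesc x m hm hg i hi
      exact ⟨j0, b + i, fun j h1 h2 => ⟨m + 1, hd1 j h1 h2⟩⟩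
  · -- locz
    intro j x hx hjx
    have hvx := hF'z x hx
    have hxO : x ∈ O := by
      by_contra h
      exact hvx.ne' ((hvz x).2 h)
    by_cases hj : j < b
    · have h1 : h j x = 0 := by
        by_contra hne
        have hpos : 0 < h j x := lt_of_le_of_ne (hI.nonneg j x) (Ne.symm hne)
        have h2 := (hclose j hj x).1
        rw [hjx, zero_sub, abs_neg, abs_of_pos hpos] at h2
        nlinarith
      filter_upwards [hI.locz j x hxO.1 h1] with y hy
      rw [hold hj, hy]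
      by_cases hvy : v y = 0
      · rw [hT0 _ y hvy]
      · obtain ⟨m, hm, hg⟩ := hcase y (hvpos y hvy)
        rw [T_fix (p := (0, v y)) hm (D_zero _)]
    · push Not at hj
      obtain ⟨i, hi⟩ := mem_iUnion.1 hxO.2
      have hne : i ≠ j - b := by
        intro he
        obtain ⟨m, hm, hg⟩ := hcase x hvx
        rw [hnew hj x (he ▸ hi)] at hjx
        have h1 := (T_row (p := (s x, v x)) hm).1
        rw [hjx] at h1
        have : (0 : ℝ) < (1 / 2) ^ (m + 1) := by positivity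
        linarith
      filter_upwards [(hQo i).mem_nhds hi] with y hy
      exact hnew0 hj y (fun h => hne (hQd _ _ y hy h))
  · -- closeness
    intro j x
    by_cases hj : j < b
    · have h1 := (hclose j hj x).2
      have h2 := (hvδ x).1
      have h3 := hv0 x
      linarith
    · push Not at hj
      rw [hI.zero j hj x, sub_zero]
      by_cases hx : v x = 0
      · rw [hz_new hj x hx]; simpa using hδ.le
      · by_cases hQ : x ∈ Q (j - b)
        · obtain ⟨m, hm, hg⟩ := hcase x (hvpos x hx)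
          rw [hnew hj x hQ]
          have h1 := T_row (p := (s x, v x)) hm
          have h2 : (0 : ℝ) ≤ (T (s x, v x)).2 := le_trans (by positivity) h1.1
          rw [abs_of_nonneg h2]
          have h3 : ((1 : ℝ) / 2) ^ m = 2 * (1 / 2) ^ (m + 1) := by rw [pow_succ]; ring
          have h4 := h1.2
          have h5 := hm.1
          have h6 := (hvδ x).1
          linarith
        · rw [hnew0 hj x hQ]; simpa using hδ.le
  · exact fun j hj x => (hclose j hj x).1
  · -- covering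
    intro x hx
    obtain ⟨i, hir, hi⟩ := hQc x hx
    have hxO : x ∈ O := ⟨fun hF => hx (hI.sub hF), mem_iUnion.2 ⟨i, hi⟩⟩
    have hvx : 0 < v x := hvpos x (fun h => (hvz x).1 h hxO)
    refine ⟨b + i, Nat.le_add_right _ _, by omega, ?_⟩
    obtain ⟨m, hm, hg⟩ := hcase x hvx
    rw [hnew (Nat.le_add_right _ _) x (by simpa using hi)]
    exact lt_of_lt_of_le (by positivity) (T_row (p := (s x, v x)) hm).1
  · -- small
    intro j hj x y hx hy
    have hxQ : x ∈ Q (j - b) := by
      by_contra h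
      rw [hnew0 hj x h] at hx
      exact lt_irrefl _ hx
    have hyQ : y ∈ Q (j - b) := by
      by_contra h
      rw [hnew0 hj y h] at hy
      exact lt_irrefl _ hy
    exact hQε _ x hxQ y hyQ

end H13.CubeDim
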