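import Pool.Agent.H13.CubeDim.TMap

set_option autoImplicit false

open Set Filter Topology

namespace H13.CubeDim

open Classical in
/-- one step at scale `2 ^ (-n)`, only applied at height at least `2 ^ (-n)` -/
noncomputable def es (n : ℕ) (p : ℝ × ℝ) : ℝ × ℝ := if (1 / 2) ^ n ≤ p.2 then ee n p else p

lemma D_half_pow (n : ℕ) : D n ((1 / 2) ^ n) := by
  refine ⟨1, ?_⟩
  have := pow_pos' n
  rw [one_div, inv_pow, mul_inv_cancel₀ this.ne']
  norm_num

lemma es_cont (n : ℕ) : Continuous (es n) := by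
  unfold es
  refine Continuous.if_le (ee_cont n) continuous_id continuous_const continuous_snd ?_
  intro p hp
  exact ee_fix2 (hp ▸ D_half_pow n)

lemma es_close (n : ℕ) (p : ℝ × ℝ) :
    |(es n p).1 - p.1| ≤ (1 / 2) ^ n ∧ |(es n p).2 - p.2| ≤ (1 / 2) ^ n := by
  unfold es
  split_ifs with h
  · exact ee_close n p
  · simp only [sub_self, abs_zero]
    constructor <;> positivity

noncomputable def tt : ℕ → ℝ × ℝ → ℝ × ℝ
  | 0, p => p
  | n + 1, p => es n (tt n p)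

lemma tt_cont (n : ℕ) : Continuous (tt n) := by
  induction n with
  | zero => exact continuous_id
  | succ n ih => exact (es_cont n).comp ih

lemma tt_close (n : ℕ) (p : ℝ × ℝ) : ‖tt (n + 1) p - tt n p‖ ≤ (1 / 2) ^ n := by
  obtain ⟨h1, h2⟩ := es_close n (tt n p)
  rw [Prod.norm_def]
  exact max_le h1 h2

noncomputable def T (p : ℝ × ℝ) : ℝ × ℝ := p + ∑' n, (tt (n + 1) p - tt n p)

lemma T_cont : Continuous T := by
  unfold T
  refine continuous_id.add (continuous_tsum (u := fun n => (1 / 2 : ℝ) ^ n) ?_ ?_ ?_)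
  · intro n
    exact (tt_cont (n + 1)).sub (tt_cont n)
  · exact summable_geometric_two
  · exact tt_close

lemma T_tendsto (p : ℝ × ℝ) : Tendsto (fun n => tt n p) atTop (𝓝 (T p)) := by
  have hs : Summable (fun n => tt (n + 1) p - tt n p) :=
    Summable.of_norm_bounded summable_geometric_two (fun n => tt_close n p)
  have h1 := hs.hasSum.tendsto_sum_nat
  have h2 : ∀ n, ∑ i ∈ Finset.range n, (tt (i + 1) p - tt i p) = tt n p - p := by
    intro n
    rw [Finset.sum_range_sub (fun i => tt i p) n]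
    rfl
  simp only [h2] at h1
  have h3 := h1.const_add p
  simpa [T] using h3

lemma T_eq_of_eventually {p r : ℝ × ℝ} (N : ℕ) (h : ∀ n, N ≤ n → tt n p = r) : T p = r := by
  refine tendsto_nhds_unique (T_tendsto p) ?_
  refine tendsto_const_nhds.congr' ?_
  filter_upwards [eventually_ge_atTop N] with n hn
  exact (h n hn).symm

lemma T_nonpos {p : ℝ × ℝ} (h : p.2 ≤ 0) : T p = p := by
  refine T_eq_of_eventually 0 (fun n _ => ?_)
  induction n with
  | zero => rfl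
  | succ n ih =>
    change es n (tt n p) = p
    rw [ih (Nat.zero_le _)]
    unfold es
    rw [if_neg]
    have : (0 : ℝ) < (1 / 2) ^ n := by positivity
    linarith

/-- `v` lies in row `m`. -/
def Row (m : ℕ) (v : ℝ) : Prop := (1 / 2) ^ (m + 1) ≤ v ∧ v ≤ (1 / 2) ^ m

lemma row_iff {m : ℕ} {v : ℝ} : Row m v ↔
    ((1 : ℤ) : ℝ) ≤ 2 ^ (m + 1) * v ∧ 2 ^ (m + 1) * v ≤ ((2 : ℤ) : ℝ) := by
  unfold Row
  have h := pow_pos' (m + 1)
  have e : (2 : ℝ) ^ (m + 1) * (1 / 2) ^ (m + 1) = 1 := by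
    rw [← mul_pow]; norm_num
  have e2 : (2 : ℝ) ^ (m + 1) * (1 / 2) ^ m = 2 := by
    rw [pow_succ, mul_right_comm, ← mul_pow]; norm_num
  constructor
  · rintro ⟨h1, h2⟩
    constructor
    · push_cast
      rw [← e]
      exact mul_le_mul_of_nonneg_left h1 h.le
    · push_cast
      exact (mul_le_mul_of_nonneg_left h2 h.le).trans_eq e2
  · rintro ⟨h1, h2⟩
    push_cast at h1 h2
    constructor
    · exact le_of_mul_le_mul_left (e.trans_le h1) h
    · exact le_of_mul_le_mul_left (h2.trans_eq e2.symm) h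

lemma half_pow_le {a b : ℕ} (h : a ≤ b) : (1 / 2 : ℝ) ^ b ≤ (1 / 2) ^ a :=
  pow_le_pow_of_le_one (by norm_num) (by norm_num) h

lemma tt_low {m : ℕ} {p : ℝ × ℝ} (hr : Row m p.2) {n : ℕ} (hn : n ≤ m + 1) : tt n p = p := by
  induction n with
  | zero => rfl
  | succ n ih =>
    change es n (tt n p) = p
    rw [ih (by omega)]
    unfold es
    split_ifs with h
    · have h2 : p.2 ≤ (1 / 2) ^ n := hr.2.trans (half_pow_le (by omega))
      have h3 : p.2 = (1 / 2) ^ n := le_antisymm h2 h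
      exact ee_fix2 (h3 ▸ D_half_pow n)
    · rfl

lemma tt_inv {m : ℕ} {p : ℝ × ℝ} (hr : Row m p.2) (k : ℕ) :
    Row m (tt (m + 1 + k) p).2 ∧
    tt (m + 1 + k + 1) p = ee (m + 1 + k) (tt (m + 1 + k) p) ∧
    (∀ z : ℤ, ((z : ℝ) ≤ 2 ^ (m + 1) * p.1 → (z : ℝ) ≤ 2 ^ (m + 1) * (tt (m + 1 + k) p).1) ∧
      (2 ^ (m + 1) * p.1 ≤ (z : ℝ) → 2 ^ (m + 1) * (tt (m + 1 + k) p).1 ≤ (z : ℝ))) := by
  have step : ∀ k, Row m (tt (m + 1 + k) p).2 →
      tt (m + 1 + k + 1) p = ee (m + 1 + k) (tt (m + 1 + k) p) := by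
    intro k h
    change es (m + 1 + k) (tt (m + 1 + k) p) = _
    unfold es
    rw [if_pos]
    exact (half_pow_le (by omega)).trans h.1
  induction k with
  | zero =>
    have h0 : tt (m + 1 + 0) p = p := tt_low hr le_rfl
    have hr' : Row m (tt (m + 1 + 0) p).2 := by rw [h0]; exact hr
    refine ⟨hr', step 0 hr', fun z => ?_⟩
    rw [h0]
    exact ⟨id, id⟩
  | succ k ih =>
    obtain ⟨h1, h2, h3⟩ := ih
    have e : m + 1 + (k + 1) = m + 1 + k + 1 := by ring
    have hr' : Row m (tt (m + 1 + (k + 1)) p).2 := by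
      rw [e, h2, row_iff]
      rw [row_iff] at h1
      have hc := fun z => ee_coarse (N := m + 1) (n := m + 1 + k) (by omega)
        (p := tt (m + 1 + k) p) (z := z)
      exact ⟨(hc 1).2.2.1 h1.1, (hc 2).2.2.2 h1.2⟩
    refine ⟨hr', step (k + 1) hr', fun z => ?_⟩
    rw [e, h2]
    have hc := ee_coarse (N := m + 1) (n := m + 1 + k) (by omega)
        (p := tt (m + 1 + k) p) (z := z)
    exact ⟨fun h => hc.1 ((h3 z).1 h), fun h => hc.2.1 ((h3 z).2 h)⟩

lemma T_tendsto' (m : ℕ) (p : ℝ × ℝ) :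
    Tendsto (fun k => tt (m + 1 + k) p) atTop (𝓝 (T p)) := by
  have h := (tendsto_add_atTop_iff_nat (m + 1)).2 (T_tendsto p)
  refine h.congr (fun k => ?_)
  rw [Nat.add_comm]

lemma T_row {m : ℕ} {p : ℝ × ℝ} (hr : Row m p.2) : Row m (T p).2 := by
  have h := (continuous_snd.tendsto _).comp (T_tendsto' m p)
  exact ⟨ge_of_tendsto' h (fun k => (tt_inv hr k).1.1), le_of_tendsto' h (fun k => (tt_inv hr k).1.2)⟩

lemma T_cell {m : ℕ} {p : ℝ × ℝ} (hr : Row m p.2) (z : ℤ) :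
    ((z : ℝ) ≤ 2 ^ (m + 1) * p.1 → (z : ℝ) ≤ 2 ^ (m + 1) * (T p).1) ∧
    (2 ^ (m + 1) * p.1 ≤ (z : ℝ) → 2 ^ (m + 1) * (T p).1 ≤ (z : ℝ)) := by
  have h := ((continuous_fst.tendsto _).comp (T_tendsto' m p)).const_mul ((2 : ℝ) ^ (m + 1))
  exact ⟨fun hz => ge_of_tendsto' h (fun k => ((tt_inv hr k).2.2 z).1 hz),
    fun hz => le_of_tendsto' h (fun k => ((tt_inv hr k).2.2 z).2 hz)⟩

lemma T_near {m : ℕ} {p : ℝ × ℝ} (hr : Row m p.2) : |(T p).1 - p.1| ≤ (1 / 2) ^ (m + 1) := by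
  have h := pow_pos' (m + 1)
  have h1 := (T_cell hr ⌊(2 : ℝ) ^ (m + 1) * p.1⌋).1 (Int.floor_le _)
  have h2 := (T_cell hr (⌊(2 : ℝ) ^ (m + 1) * p.1⌋ + 1)).2
    (by push_cast; exact (Int.lt_floor_add_one _).le)
  push_cast at h2
  have h3 := Int.floor_le ((2 : ℝ) ^ (m + 1) * p.1)
  have h4 := Int.lt_floor_add_one ((2 : ℝ) ^ (m + 1) * p.1)
  have h5 : |(2 : ℝ) ^ (m + 1) * ((T p).1 - p.1)| ≤ 1 := by
    rw [mul_sub]
    exact abs_le.2 ⟨by linarith, by linarith⟩
  rw [abs_mul, abs_of_pos h] at h5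
  have e : (2 : ℝ) ^ (m + 1) * (1 / 2) ^ (m + 1) = 1 := by
    rw [← mul_pow]; norm_num
  exact le_of_mul_le_mul_left (h5.trans_eq e.symm) h

lemma T_nonneg1 {m : ℕ} {p : ℝ × ℝ} (hr : Row m p.2) (h : 0 ≤ p.1) : 0 ≤ (T p).1 := by
  have h1 := pow_pos' (m + 1)
  have h2 := (T_cell hr 0).1 (by push_cast; exact mul_nonneg h1.le h)
  push_cast at h2
  exact nonneg_of_mul_nonneg_right h2 h1

lemma tt_fix {m : ℕ} {p : ℝ × ℝ} (hr : Row m p.2) (hD : D (m + 1) p.1) (k : ℕ) :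
    tt (m + 1 + k) p = p := by
  induction k with
  | zero => exact tt_low hr le_rfl
  | succ k ih =>
    have e : m + 1 + (k + 1) = m + 1 + k + 1 := by ring
    rw [e, (tt_inv hr k).2.1, ih]
    exact ee_fix1 (D_mono (by omega) hD)

lemma T_fix {m : ℕ} {p : ℝ × ℝ} (hr : Row m p.2) (hD : D (m + 1) p.1) : T p = p := by
  refine T_eq_of_eventually (m + 1) (fun n hn => ?_)
  obtain ⟨k, rfl⟩ := Nat.exists_eq_add_of_le hn
  exact tt_fix hr hD k

lemma tt_equiv {m : ℕ} {q v d : ℝ} (hr : Row m v) (hd : D (m + 1) d) (k : ℕ) :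
    tt (m + 1 + k) (q + d, v) = ((tt (m + 1 + k) (q, v)).1 + d, (tt (m + 1 + k) (q, v)).2) := by
  induction k with
  | zero =>
    rw [tt_low (m := m) (p := (q + d, v)) hr le_rfl, tt_low (m := m) (p := (q, v)) hr le_rfl]
  | succ k ih =>
    have e : m + 1 + (k + 1) = m + 1 + k + 1 := by ring
    rw [e, (tt_inv (p := (q + d, v)) hr k).2.1, (tt_inv (p := (q, v)) hr k).2.1, ih]
    exact ee_equiv (D_mono (by omega) hd)

lemma T_equiv {m : ℕ} {q v d : ℝ} (hr : Row m v) (hd : D (m + 1) d) :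
    T (q + d, v) = ((T (q, v)).1 + d, (T (q, v)).2) := by
  have h1 := T_tendsto' m (q + d, v)
  have h2 := T_tendsto' m (q, v)
  simp only [tt_equiv hr hd] at h1
  refine tendsto_nhds_unique h1 ?_
  have h3 := (continuous_fst.tendsto _).comp h2
  have h4 := (continuous_snd.tendsto _).comp h2
  exact (h3.add_const d).prodMk_nhds h4

lemma tt_rank {m : ℕ} {p : ℝ × ℝ} (hr : Row m p.2) (k : ℕ) :
    D (m + 1 + k) (tt (m + 1 + k) p).1 ∨ D (m + 1 + k) (tt (m + 1 + k) p).2 ∨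
    Int.fract ((2 : ℝ) ^ (m + 1 + k) * (tt (m + 1 + k) p).2) - 1 / 2 =
      10 ^ k * (2 ^ (m + 1) * p.2 - 3 / 2) := by
  induction k with
  | zero =>
    simp only [Nat.add_zero]
    rw [tt_low hr le_rfl]
    obtain ⟨h1, h2⟩ := row_iff.1 hr
    push_cast at h1 h2
    rcases h2.lt_or_eq with h2 | h2
    · right; right
      have h3 : Int.fract ((2 : ℝ) ^ (m + 1) * p.2) = 2 ^ (m + 1) * p.2 - 1 := by
        have h4 : (2 : ℝ) ^ (m + 1) * p.2 = (2 ^ (m + 1) * p.2 - 1) + ((1 : ℤ) : ℝ) := by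
          push_cast; ring
        rw [h4, Int.fract_add_intCast, Int.fract_eq_self.2 ⟨by linarith, by linarith⟩]
        push_cast; ring
      rw [h3]
      ring
    · right; left
      exact ⟨2, by push_cast; exact h2⟩
  | succ k ih =>
    have e : m + 1 + (k + 1) = m + 1 + k + 1 := by ring
    rw [e, (tt_inv hr k).2.1]
    rcases ih with h | h | h
    · left
      rw [ee_fix1 h]
      exact D_mono (by omega) h
    · right; left
      rw [ee_fix2 h]
      exact D_mono (by omega) h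
    · rcases ee_rank (m + 1 + k) (tt (m + 1 + k) p) with h' | h' | h'
      · exact Or.inl h'
      · exact Or.inr (Or.inl h')
      · right; right
        rw [h', h, pow_succ]
        ring

lemma tt_stay1 {m : ℕ} {p : ℝ × ℝ} (hr : Row m p.2) (k : ℕ)
    (h : D (m + 1 + k) (tt (m + 1 + k) p).1 ∨ D (m + 1 + k) (tt (m + 1 + k) p).2) (l : ℕ) :
    tt (m + 1 + k + l) p = tt (m + 1 + k) p := by
  induction l with
  | zero => rfl
  | succ l ih =>
    have e : m + 1 + k + (l + 1) = m + 1 + (k + l) + 1 := by ring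
    have e2 : m + 1 + (k + l) = m + 1 + k + l := by ring
    rw [e, (tt_inv hr (k + l)).2.1, e2, ih]
    rcases h with h | h
    · exact ee_fix1 (D_mono (by omega) h)
    · exact ee_fix2 (D_mono (by omega) h)

lemma T_rank {m : ℕ} {p : ℝ × ℝ} (hr : Row m p.2) {k : ℕ}
    (h : (1 / 2) * (1 / 10) ^ k ≤ |(2 : ℝ) ^ (m + 1) * p.2 - 3 / 2|) :
    D (m + 1 + k) (T p).1 ∨ D (m + 1 + k) (T p).2 := by
  have key : D (m + 1 + k) (tt (m + 1 + k) p).1 ∨ D (m + 1 + k) (tt (m + 1 + k) p).2 := by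
    rcases tt_rank hr k with h1 | h1 | h1
    · exact Or.inl h1
    · exact Or.inr h1
    · right
      set w := (2 : ℝ) ^ (m + 1 + k) * (tt (m + 1 + k) p).2 with hw
      have h2 := Int.fract_nonneg w
      have h3 := Int.fract_lt_one w
      have h4 : (1 : ℝ) / 2 ≤ |Int.fract w - 1 / 2| := by
        rw [h1, abs_mul, abs_of_pos (by positivity : (0 : ℝ) < 10 ^ k)]
        calc (1 : ℝ) / 2 = 10 ^ k * ((1 / 2) * (1 / 10) ^ k) := by
              rw [mul_left_comm, ← mul_pow]; norm_num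
          _ ≤ _ := mul_le_mul_of_nonneg_left h (by positivity)
      have h5 : Int.fract w = 0 := by
        rcases le_abs.1 h4 with h6 | h6 <;> linarith
      refine ⟨⌊w⌋, ?_⟩
      have h6 := Int.floor_add_fract w
      rw [h5, add_zero] at h6
      exact h6.symm
  have hT : T p = tt (m + 1 + k) p := by
    refine T_eq_of_eventually (m + 1 + k) (fun n hn => ?_)
    obtain ⟨l, rfl⟩ := Nat.exists_eq_add_of_le hn
    exact tt_stay1 hr k key l
  rw [hT]
  exact key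

lemma exists_row {v : ℝ} (h0 : 0 < v) (h1 : v ≤ 1) : ∃ m, Row m v := by
  obtain ⟨n, h2, h3⟩ := exists_nat_pow_near_of_lt_one h0 h1 (by norm_num : (0 : ℝ) < 1 / 2)
    (by norm_num)
  exact ⟨n, h2.le, h3⟩

end H13.CubeDim
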