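import Pool.Agent.H13.CubeDim.Planar

set_option autoImplicit false

open Set Filter Topology

namespace H13.CubeDim

/-- `t` is an integer multiple of `2 ^ (-n)`. -/
def D (n : ℕ) (t : ℝ) : Prop := ∃ z : ℤ, (2 : ℝ) ^ n * t = z

lemma D_zero (n : ℕ) : D n 0 := ⟨0, by simp⟩

lemma D_mono {n m : ℕ} (h : n ≤ m) {t : ℝ} (ht : D n t) : D m t := by
  obtain ⟨z, hz⟩ := ht
  obtain ⟨k, rfl⟩ := Nat.exists_eq_add_of_le h
  refine ⟨2 ^ k * z, ?_⟩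
  push_cast
  rw [← hz]
  ring

lemma D_add {n : ℕ} {s t : ℝ} (hs : D n s) (ht : D n t) : D n (s + t) := by
  obtain ⟨a, ha⟩ := hs
  obtain ⟨b, hb⟩ := ht
  exact ⟨a + b, by push_cast; rw [mul_add, ha, hb]⟩

lemma D_sub {n : ℕ} {s t : ℝ} (hs : D n s) (ht : D n t) : D n (s - t) := by
  obtain ⟨a, ha⟩ := hs
  obtain ⟨b, hb⟩ := ht
  exact ⟨a - b, by push_cast; rw [mul_sub, ha, hb]⟩

lemma D_sum {n : ℕ} {ι : Type*} (s : Finset ι) (f : ι → ℝ) (h : ∀ i ∈ s, D n (f i)) :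
    D n (∑ i ∈ s, f i) := by
  classical
  induction s using Finset.induction_on with
  | empty => simpa using D_zero n
  | insert a s ha ih =>
    rw [Finset.sum_insert ha]
    exact D_add (h a (Finset.mem_insert_self _ _))
      (ih (fun i hi => h i (Finset.mem_insert_of_mem hi)))

/-- periodic displacement in the first coordinate -/
noncomputable def G1 (q v : ℝ) : ℝ := E1 (cl q) (cl v) - cl q
noncomputable def G2 (q v : ℝ) : ℝ := E2 (cl q) (cl v) - cl v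

lemma G1_cont : Continuous (fun p : ℝ × ℝ => G1 p.1 p.2) := by
  unfold G1
  have h := cl_cont
  have h1 := E1_cont.comp ((cl_cont.comp continuous_fst).prodMk (cl_cont.comp continuous_snd))
  simp only [Function.comp_def] at h1
  fun_prop
lemma G2_cont : Continuous (fun p : ℝ × ℝ => G2 p.1 p.2) := by
  unfold G2
  have h := cl_cont
  have h1 := E2_cont.comp ((cl_cont.comp continuous_fst).prodMk (cl_cont.comp continuous_snd))
  simp only [Function.comp_def] at h1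
  fun_prop

lemma cl_zero : cl 0 = 0 := cl_of_nonpos le_rfl
lemma cl_one : cl 1 = 1 := cl_of_one_le le_rfl

lemma G1_l (v : ℝ) : G1 0 v = 0 := by
  unfold G1
  rw [cl_zero, (E_bdry (rad_eq_left (cl_nonneg v) (cl_le_one v))).1]; ring
lemma G1_r (v : ℝ) : G1 1 v = 0 := by
  unfold G1
  rw [cl_one, (E_bdry (rad_eq_right (cl_nonneg v) (cl_le_one v))).1]; ring
lemma G1_b (q : ℝ) : G1 q 0 = 0 := by
  unfold G1
  rw [cl_zero, (E_bdry (rad_eq_bot (cl_nonneg q) (cl_le_one q))).1]; ring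
lemma G1_t (q : ℝ) : G1 q 1 = 0 := by
  unfold G1
  rw [cl_one, (E_bdry (rad_eq_top (cl_nonneg q) (cl_le_one q))).1]; ring
lemma G2_l (v : ℝ) : G2 0 v = 0 := by
  unfold G2
  rw [cl_zero, (E_bdry (rad_eq_left (cl_nonneg v) (cl_le_one v))).2]; ring
lemma G2_r (v : ℝ) : G2 1 v = 0 := by
  unfold G2
  rw [cl_one, (E_bdry (rad_eq_right (cl_nonneg v) (cl_le_one v))).2]; ring
lemma G2_b (q : ℝ) : G2 q 0 = 0 := by
  unfold G2
  rw [cl_zero, (E_bdry (rad_eq_bot (cl_nonneg q) (cl_le_one q))).2]; ring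
lemma G2_t (q : ℝ) : G2 q 1 = 0 := by
  unfold G2
  rw [cl_one, (E_bdry (rad_eq_top (cl_nonneg q) (cl_le_one q))).2]; ring

lemma comp_fract_two {g : ℝ → ℝ → ℝ} (hg : Continuous (fun p : ℝ × ℝ => g p.1 p.2))
    (hl : ∀ v, g 0 v = 0) (hr : ∀ v, g 1 v = 0) (hb : ∀ q, g q 0 = 0) (ht : ∀ q, g q 1 = 0) :
    Continuous (fun p : ℝ × ℝ => g (Int.fract p.1) (Int.fract p.2)) := by
  have h1 : Continuous (fun st : ℝ × ℝ => g st.1 (Int.fract st.2)) :=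
    ContinuousOn.comp_fract' (f := g) hg.continuousOn (fun s => by rw [hb, ht])
  have h2 : Continuous (fun st : ℝ × ℝ => g (Int.fract st.2) (Int.fract st.1)) := by
    refine ContinuousOn.comp_fract' (f := fun t s => g s (Int.fract t)) ?_ (fun s => ?_)
    · exact (h1.comp (continuous_snd.prodMk continuous_fst)).continuousOn
    · simp only [hl, hr]
  exact h2.comp (continuous_snd.prodMk continuous_fst)

/-- One step at scale `2 ^ (-n)`. -/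
noncomputable def ee (n : ℕ) (p : ℝ × ℝ) : ℝ × ℝ :=
  (p.1 + G1 (Int.fract (2 ^ n * p.1)) (Int.fract (2 ^ n * p.2)) / 2 ^ n,
   p.2 + G2 (Int.fract (2 ^ n * p.1)) (Int.fract (2 ^ n * p.2)) / 2 ^ n)

lemma ee_cont (n : ℕ) : Continuous (ee n) := by
  have h1 := (comp_fract_two G1_cont G1_l G1_r G1_b G1_t).comp
    (((continuous_const (y := (2 : ℝ) ^ n)).mul (continuous_fst (X := ℝ) (Y := ℝ))).prodMk
      ((continuous_const (y := (2 : ℝ) ^ n)).mul (continuous_snd (X := ℝ) (Y := ℝ))))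
  have h2 := (comp_fract_two G2_cont G2_l G2_r G2_b G2_t).comp
    (((continuous_const (y := (2 : ℝ) ^ n)).mul (continuous_fst (X := ℝ) (Y := ℝ))).prodMk
      ((continuous_const (y := (2 : ℝ) ^ n)).mul (continuous_snd (X := ℝ) (Y := ℝ))))
  simp only [Function.comp_def] at h1 h2
  unfold ee
  fun_prop

lemma pow_pos' (n : ℕ) : (0 : ℝ) < 2 ^ n := by positivity

lemma cl_fract (x : ℝ) : cl (Int.fract x) = Int.fract x :=
  cl_of_mem (Int.fract_nonneg _) (Int.fract_lt_one _).le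

lemma ee_fst (n : ℕ) (p : ℝ × ℝ) : 2 ^ n * (ee n p).1 =
    ⌊(2 : ℝ) ^ n * p.1⌋ + E1 (Int.fract (2 ^ n * p.1)) (Int.fract (2 ^ n * p.2)) := by
  have h := pow_pos' n
  have h2 : 2 ^ n * (ee n p).1 = 2 ^ n * p.1 +
      G1 (Int.fract (2 ^ n * p.1)) (Int.fract (2 ^ n * p.2)) := by
    unfold ee
    field_simp
  rw [h2]
  unfold G1
  rw [cl_fract, cl_fract]
  have := Int.floor_add_fract ((2 : ℝ) ^ n * p.1)
  linarith

lemma ee_snd (n : ℕ) (p : ℝ × ℝ) : 2 ^ n * (ee n p).2 =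
    ⌊(2 : ℝ) ^ n * p.2⌋ + E2 (Int.fract (2 ^ n * p.1)) (Int.fract (2 ^ n * p.2)) := by
  have h := pow_pos' n
  have h2 : 2 ^ n * (ee n p).2 = 2 ^ n * p.2 +
      G2 (Int.fract (2 ^ n * p.1)) (Int.fract (2 ^ n * p.2)) := by
    unfold ee
    field_simp
  rw [h2]
  unfold G2
  rw [cl_fract, cl_fract]
  have := Int.floor_add_fract ((2 : ℝ) ^ n * p.2)
  linarith

lemma fract_of_D {n : ℕ} {t : ℝ} (h : D n t) : Int.fract ((2 : ℝ) ^ n * t) = 0 := by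
  obtain ⟨z, hz⟩ := h
  rw [hz, Int.fract_intCast]

lemma ee_fix1 {n : ℕ} {p : ℝ × ℝ} (h : D n p.1) : ee n p = p := by
  unfold ee
  rw [fract_of_D h, G1_l, G2_l]
  simp

lemma ee_fix2 {n : ℕ} {p : ℝ × ℝ} (h : D n p.2) : ee n p = p := by
  unfold ee
  rw [fract_of_D h, G1_b, G2_b]
  simp

lemma rad_fract (x y : ℝ) : rad (Int.fract x) (Int.fract y) ≤ 1 / 2 :=
  rad_le (Int.fract_nonneg _) (Int.fract_lt_one _).le (Int.fract_nonneg _) (Int.fract_lt_one _).le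

lemma ee_ge1 {n : ℕ} {p : ℝ × ℝ} {z : ℤ} (h : (z : ℝ) ≤ 2 ^ n * p.1) :
    (z : ℝ) ≤ 2 ^ n * (ee n p).1 := by
  rw [ee_fst]
  have h1 : z ≤ ⌊(2 : ℝ) ^ n * p.1⌋ := Int.le_floor.2 h
  have h2 : (z : ℝ) ≤ (⌊(2 : ℝ) ^ n * p.1⌋ : ℝ) := by exact_mod_cast h1
  have := (E1_mem (rad_fract (2 ^ n * p.1) (2 ^ n * p.2))).1
  linarith

lemma ee_le1 {n : ℕ} {p : ℝ × ℝ} {z : ℤ} (h : 2 ^ n * p.1 ≤ (z : ℝ)) :
    2 ^ n * (ee n p).1 ≤ (z : ℝ) := by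
  rcases h.lt_or_eq with h1 | h1
  · rw [ee_fst]
    have h2 : ⌊(2 : ℝ) ^ n * p.1⌋ + 1 ≤ z := Int.floor_lt.2 h1
    have h3 : ((⌊(2 : ℝ) ^ n * p.1⌋ : ℝ) + 1) ≤ z := by exact_mod_cast h2
    have := (E1_mem (rad_fract (2 ^ n * p.1) (2 ^ n * p.2))).2
    linarith
  · rw [ee_fix1 ⟨z, h1⟩]
    exact h

lemma ee_ge2 {n : ℕ} {p : ℝ × ℝ} {z : ℤ} (h : (z : ℝ) ≤ 2 ^ n * p.2) :
    (z : ℝ) ≤ 2 ^ n * (ee n p).2 := by
  rw [ee_snd]
  have h1 : z ≤ ⌊(2 : ℝ) ^ n * p.2⌋ := Int.le_floor.2 h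
  have h2 : (z : ℝ) ≤ (⌊(2 : ℝ) ^ n * p.2⌋ : ℝ) := by exact_mod_cast h1
  have := (E2_mem (rad_fract (2 ^ n * p.1) (2 ^ n * p.2))).1
  linarith

lemma ee_le2 {n : ℕ} {p : ℝ × ℝ} {z : ℤ} (h : 2 ^ n * p.2 ≤ (z : ℝ)) :
    2 ^ n * (ee n p).2 ≤ (z : ℝ) := by
  rcases h.lt_or_eq with h1 | h1
  · rw [ee_snd]
    have h2 : ⌊(2 : ℝ) ^ n * p.2⌋ + 1 ≤ z := Int.floor_lt.2 h1
    have h3 : ((⌊(2 : ℝ) ^ n * p.2⌋ : ℝ) + 1) ≤ z := by exact_mod_cast h2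
    have := (E2_mem (rad_fract (2 ^ n * p.1) (2 ^ n * p.2))).2
    linarith
  · rw [ee_fix2 ⟨z, h1⟩]
    exact h

/-- preservation of coarser grid half-planes -/
lemma ee_coarse {N n : ℕ} (hN : N ≤ n) {p : ℝ × ℝ} {z : ℤ} :
    ((z : ℝ) ≤ 2 ^ N * p.1 → (z : ℝ) ≤ 2 ^ N * (ee n p).1) ∧
    (2 ^ N * p.1 ≤ (z : ℝ) → 2 ^ N * (ee n p).1 ≤ (z : ℝ)) ∧
    ((z : ℝ) ≤ 2 ^ N * p.2 → (z : ℝ) ≤ 2 ^ N * (ee n p).2) ∧
    (2 ^ N * p.2 ≤ (z : ℝ) → 2 ^ N * (ee n p).2 ≤ (z : ℝ)) := by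
  obtain ⟨k, rfl⟩ := Nat.exists_eq_add_of_le hN
  have hk := pow_pos' k
  have e : ∀ x : ℝ, (2 : ℝ) ^ (N + k) * x = 2 ^ k * (2 ^ N * x) := by intro x; ring
  have c : ((2 ^ k * z : ℤ) : ℝ) = 2 ^ k * (z : ℝ) := by push_cast; ring
  refine ⟨fun h => ?_, fun h => ?_, fun h => ?_, fun h => ?_⟩
  · have h1 : ((2 ^ k * z : ℤ) : ℝ) ≤ 2 ^ (N + k) * p.1 := by
      rw [c, e]; exact mul_le_mul_of_nonneg_left h hk.le
    have h2 := ee_ge1 h1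
    rw [c, e] at h2
    exact le_of_mul_le_mul_left h2 hk
  · have h1 : 2 ^ (N + k) * p.1 ≤ ((2 ^ k * z : ℤ) : ℝ) := by
      rw [c, e]; exact mul_le_mul_of_nonneg_left h hk.le
    have h2 := ee_le1 h1
    rw [c, e] at h2
    exact le_of_mul_le_mul_left h2 hk
  · have h1 : ((2 ^ k * z : ℤ) : ℝ) ≤ 2 ^ (N + k) * p.2 := by
      rw [c, e]; exact mul_le_mul_of_nonneg_left h hk.le
    have h2 := ee_ge2 h1
    rw [c, e] at h2
    exact le_of_mul_le_mul_left h2 hk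
  · have h1 : 2 ^ (N + k) * p.2 ≤ ((2 ^ k * z : ℤ) : ℝ) := by
      rw [c, e]; exact mul_le_mul_of_nonneg_left h hk.le
    have h2 := ee_le2 h1
    rw [c, e] at h2
    exact le_of_mul_le_mul_left h2 hk

lemma ee_equiv {n : ℕ} {q v d : ℝ} (hd : D n d) :
    ee n (q + d, v) = ((ee n (q, v)).1 + d, (ee n (q, v)).2) := by
  obtain ⟨z, hz⟩ := hd
  unfold ee
  simp only
  rw [mul_add, hz, Int.fract_add_intCast]
  ext
  · simp; ring
  · simp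

lemma G_abs (x y : ℝ) : |G1 (Int.fract x) (Int.fract y)| ≤ 1 ∧
    |G2 (Int.fract x) (Int.fract y)| ≤ 1 := by
  unfold G1 G2
  rw [cl_fract, cl_fract]
  obtain ⟨a, b⟩ := E1_mem (rad_fract x y)
  obtain ⟨c, d⟩ := E2_mem (rad_fract x y)
  have h1 := Int.fract_nonneg x
  have h2 := (Int.fract_lt_one x).le
  have h3 := Int.fract_nonneg y
  have h4 := (Int.fract_lt_one y).le
  constructor <;> exact abs_le.2 ⟨by linarith, by linarith⟩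

lemma ee_close (n : ℕ) (p : ℝ × ℝ) :
    |(ee n p).1 - p.1| ≤ (1 / 2) ^ n ∧ |(ee n p).2 - p.2| ≤ (1 / 2) ^ n := by
  have h := pow_pos' n
  obtain ⟨h1, h2⟩ := G_abs (2 ^ n * p.1) (2 ^ n * p.2)
  unfold ee
  simp only [add_sub_cancel_left, abs_div, abs_of_pos h, one_div, inv_pow]
  constructor
  · rw [div_le_iff₀ h, inv_mul_cancel₀ h.ne']; exact h1
  · rw [div_le_iff₀ h, inv_mul_cancel₀ h.ne']; exact h2

lemma ee_rank (n : ℕ) (p : ℝ × ℝ) : D (n + 1) (ee n p).1 ∨ D (n + 1) (ee n p).2 ∨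
    Int.fract ((2 : ℝ) ^ (n + 1) * (ee n p).2) - 1 / 2 =
      10 * (Int.fract ((2 : ℝ) ^ n * p.2) - 1 / 2) := by
  have e1 : (2 : ℝ) ^ (n + 1) * (ee n p).1 = 2 * (2 ^ n * (ee n p).1) := by ring
  have e2 : (2 : ℝ) ^ (n + 1) * (ee n p).2 = 2 * (2 ^ n * (ee n p).2) := by ring
  rw [ee_fst] at e1
  rw [ee_snd] at e2
  rcases E_rank (rad_fract (2 ^ n * p.1) (2 ^ n * p.2)) with h | h | h | h | h | ⟨h0, h⟩
  · left
    exact ⟨2 * ⌊(2 : ℝ) ^ n * p.1⌋, by rw [e1, h]; push_cast; ring⟩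
  · left
    exact ⟨2 * ⌊(2 : ℝ) ^ n * p.1⌋ + 2, by rw [e1, h]; push_cast; ring⟩
  · right; left
    exact ⟨2 * ⌊(2 : ℝ) ^ n * p.2⌋, by rw [e2, h]; push_cast; ring⟩
  · right; left
    exact ⟨2 * ⌊(2 : ℝ) ^ n * p.2⌋ + 1, by rw [e2, h]; push_cast; ring⟩
  · right; left
    exact ⟨2 * ⌊(2 : ℝ) ^ n * p.2⌋ + 2, by rw [e2, h]; push_cast; ring⟩
  · set w := Int.fract ((2 : ℝ) ^ n * p.2) with hw
    obtain ⟨ha, hb⟩ := abs_le.1 h0
    -- the value modulo integers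
    have key : ∃ z : ℤ, (2 : ℝ) ^ (n + 1) * (ee n p).2 = z + (1 / 2 + 10 * (w - 1 / 2)) := by
      rcases h with h | h
      · exact ⟨2 * ⌊(2 : ℝ) ^ n * p.2⌋ + 1, by rw [e2, h]; push_cast; ring⟩
      · exact ⟨2 * ⌊(2 : ℝ) ^ n * p.2⌋, by rw [e2, h]; push_cast; ring⟩
    obtain ⟨z, hz⟩ := key
    rcases hb.lt_or_eq with hb | hb
    · right; right
      rw [hz, Int.fract_intCast_add, Int.fract_eq_self.2 ⟨by linarith, by linarith⟩]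
      ring
    · right; left
      exact ⟨z + 1, by rw [hz, hb]; push_cast; ring⟩

end H13.CubeDim
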